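import Pool.Agent.H69.Ratios.Points

/-!
# The coefficients of the `L`-function vanish beyond the degree
-/

set_option autoImplicit false
set_option linter.unusedSectionVars false

open Polynomial UniqueFactorizationMonoid Finset
open scoped Classical

namespace Pool.Agent.H69.Ratios

variable {F : Type} [Field F] [Fintype F]

/-- the quadratic character of the norm -/
lemma quadraticChar_norm {K : Type} [Field K] [Fintype K] [Algebra F K]
    (hq : Odd (Fintype.card F)) (y : K) :
    quadraticChar F (Algebra.norm F y) = quadraticChar K y := by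
  have hfd : FiniteDimensional F K := Module.Finite.of_finite
  have hcard : Fintype.card K = Fintype.card F ^ Module.finrank F K :=
    Module.card_eq_pow_finrank
  have hK2 : ringChar K ≠ 2 := ringChar_ne_two_of_odd K (by rw [hcard]; exact hq.pow)
  have hF2 : ringChar F ≠ 2 := ringChar_ne_two_of_odd F hq
  apply Int.cast_injOn_of_ringChar_ne_two hK2
  · by_cases h0 : Algebra.norm F y = 0
    · rw [h0]; simp
    · rcases quadraticChar_dichotomy h0 with h | h <;> simp [h]
  · by_cases h0 : y = 0
    · rw [h0]; simp
    · rcases quadraticChar_dichotomy h0 with h | h <;> simp [h]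
  · have h1 := congrArg (algebraMap F K) (quadraticChar_eq_pow_of_char_ne_two' hF2
      (Algebra.norm F y))
    rw [map_intCast, map_pow, FiniteField.algebraMap_norm_eq_pow] at h1
    rw [h1, quadraticChar_eq_pow_of_char_ne_two' hK2, hcard, half_pow _ _ hq, ← pow_mul]
    congr 1
    rw [Nat.card_eq_fintype_card, Nat.card_eq_fintype_card, hcard,
      ← Nat.geomSum_eq Fintype.one_lt_card, mul_comm]

/-- the symbol as the quadratic character of a resultant -/
lemma symbol_resultant (hq : Odd (Fintype.card F)) (D P : F[X]) (hPm : P.Monic)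
    (hPi : Irreducible P) :
    legendre D P = quadraticChar F (resultant P D P.natDegree D.natDegree) := by
  obtain ⟨p, hp⟩ := CharP.exists F
  have hprime : Fact p.Prime := ⟨CharP.char_is_prime F p⟩
  obtain ⟨m, hm⟩ : ∃ m, m = P.natDegree := ⟨_, rfl⟩
  have hmpos : 0 < m := by rw [hm]; exact hPi.natDegree_pos
  have : NeZero m := ⟨hmpos.ne'⟩
  let K := FiniteField.Extension F p m
  let : Fintype K := Fintype.ofFinite K
  have hfr : Module.finrank F K = m := FiniteField.finrank_extension F p m
  have hfd : FiniteDimensional F K := Module.Finite.of_finite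
  have hcard : Fintype.card K = Fintype.card F ^ m := by
    rw [Module.card_eq_pow_finrank (K := F) (V := K), hfr]
  have hsplit : Splits (P.map (algebraMap F K)) := by
    have h1 : P ∣ X ^ (Nat.card F) ^ m - X :=
      hPi.natDegree_dvd_iff_dvd_X_pow_card_pow_sub_X.mp (by rw [hm])
    have h2 : Nat.card F ^ m = Fintype.card K := by
      rw [Nat.card_eq_fintype_card, hcard]
    rw [h2] at h1
    have h3 := (FiniteField.isSplittingField_sub K F).splits
    refine Splits.of_dvd h3 ?_ (Polynomial.map_dvd _ h1)
    apply Polynomial.map_ne_zero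
    exact FiniteField.X_pow_card_sub_X_ne_zero F Fintype.one_lt_card
  have hsep : P.Separable := PerfectField.separable_of_irreducible hPi
  have hmapne : P.map (algebraMap F K) ≠ 0 := Polynomial.map_ne_zero hPi.ne_zero
  have hrc : (P.map (algebraMap F K)).roots.card = m := by
    rw [← hsplit.natDegree_eq_card_roots, natDegree_map, hm]
  have hnodup : (P.map (algebraMap F K)).roots.Nodup := nodup_roots hsep.map
  obtain ⟨x, hx⟩ : ∃ x, x ∈ (P.map (algebraMap F K)).roots := by
    apply Multiset.card_pos_iff_exists_mem.mp
    rw [hrc]; exact hmpos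
  have hroot : ∀ θ, θ ∈ (P.map (algebraMap F K)).roots ↔ minpoly F θ = P := by
    intro θ
    rw [mem_roots hmapne, IsRoot.def, eval_map_algebraMap]
    constructor
    · intro h
      exact (minpoly.eq_of_irreducible_of_monic hPi h hPm).symm
    · rintro rfl
      exact minpoly.aeval F θ
  have hminx : minpoly F x = P := (hroot x).mp hx
  have hG : Fintype.card (K ≃ₐ[F] K) = m := by
    have h := FiniteField.natCard_algEquiv_extension F p m
    rwa [Nat.card_eq_fintype_card] at h
  -- the roots are the conjugates of `x`
  have himage : (univ : Finset (K ≃ₐ[F] K)).image (fun σ => σ x) =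
      (P.map (algebraMap F K)).roots.toFinset := by
    symm
    apply Finset.eq_of_subset_of_card_le
    · intro θ hθ
      rw [Multiset.mem_toFinset, hroot] at hθ
      have h1 : IsConjRoot F θ x := by rw [isConjRoot_def, hθ, hminx]
      obtain ⟨σ, hσ⟩ := (isConjRoot_iff_exists_algEquiv).mp h1
      rw [Finset.mem_image]
      exact ⟨σ, mem_univ _, hσ⟩
    · rw [Multiset.toFinset_card_of_nodup hnodup, hrc]
      refine Finset.card_image_le.trans ?_
      rw [Finset.card_univ]
      exact hG.le
  have hinj : Set.InjOn (fun σ : K ≃ₐ[F] K => σ x) (univ : Finset (K ≃ₐ[F] K)) := by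
    rw [← Finset.card_image_iff, himage, Multiset.toFinset_card_of_nodup hnodup, hrc,
      Finset.card_univ]
    exact hG.symm
  have hres : algebraMap F K (resultant P D P.natDegree D.natDegree) =
      algebraMap F K (Algebra.norm F (aeval x D)) := by
    rw [← resultant_map_map]
    have h1 := resultant_eq_prod_eval (P.map (algebraMap F K)) (D.map (algebraMap F K))
      D.natDegree (natDegree_map_le) hsplit
    rw [natDegree_map] at h1
    rw [h1, (hPm.map (algebraMap F K)).leadingCoeff, one_pow, one_mul]
    rw [Algebra.norm_eq_prod_automorphisms]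
    have h2 : ((P.map (algebraMap F K)).roots.map (D.map (algebraMap F K)).eval).prod =
        ∏ θ ∈ (P.map (algebraMap F K)).roots.toFinset, (D.map (algebraMap F K)).eval θ := by
      rw [Finset.prod_multiset_map_count]
      refine Finset.prod_congr rfl fun θ hθ => ?_
      rw [Multiset.mem_toFinset] at hθ
      rw [Multiset.count_eq_one_of_mem hnodup hθ, pow_one]
    rw [h2, ← himage, Finset.prod_image (fun a ha b hb h => hinj ha hb h)]
    refine Finset.prod_congr rfl fun σ _ => ?_
    rw [eval_map_algebraMap]
    exact Polynomial.aeval_algHom_apply (σ : K →ₐ[F] K) x D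
  have hres' := (algebraMap F K).injective hres
  rw [hres', quadraticChar_norm hq, ← symbol_pow hq D x, hminx, hfr, ← hm,
    Nat.div_self hmpos, pow_one]

lemma symbol_multiset (hq : Odd (Fintype.card F)) (D : F[X]) (s : Multiset F[X])
    (hs : ∀ P ∈ s, P.Monic ∧ Irreducible P) :
    (s.map (legendre D)).prod =
      quadraticChar F (resultant s.prod D s.prod.natDegree D.natDegree) := by
  induction s using Multiset.induction_on with
  | empty => simp
  | cons P s ih =>
    have h1 := hs P (Multiset.mem_cons_self P s)
    have h2 := ih (fun Q hQ => hs Q (Multiset.mem_cons_of_mem hQ))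
    have h3 : s.prod.Monic := by
      have := monic_multiset_prod_of_monic s id (fun Q hQ =>
        (hs Q (Multiset.mem_cons_of_mem hQ)).1)
      rwa [Multiset.map_id] at this
    rw [Multiset.map_cons, Multiset.prod_cons, Multiset.prod_cons, h2,
      symbol_resultant hq D P h1.1 h1.2, ← map_mul, h1.1.natDegree_mul h3,
      resultant_mul_left _ _ _ _ le_rfl]

/-- the Jacobi symbol as the quadratic character of a resultant -/
lemma chi_resultant (hq : Odd (Fintype.card F)) (D f : F[X]) (hf : f.Monic) :
    chi D f = quadraticChar F (resultant f D f.natDegree D.natDegree) := by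
  have h1 : (normalizedFactors f).prod = f := by
    rw [prod_normalizedFactors_eq hf.ne_zero, hf.normalize_eq_self]
  have h2 := symbol_multiset hq D (normalizedFactors f) (fun P hP =>
    ⟨monic_of_mem_nf hP, irreducible_of_normalized_factor _ hP⟩)
  rw [h1] at h2
  exact h2

/-- multiply the residue modulo `D` by a constant -/
noncomputable def twist (D : F[X]) (c : F) (f : F[X]) : F[X] :=
  C c * (f %ₘ D) + D * (f /ₘ D)

lemma twist_spec (D : F[X]) (hD : D.Monic) (c : F) (n : ℕ) (hn : D.natDegree ≤ n) (f : F[X])
    (hf : f ∈ monics F n) :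
    (f /ₘ D).Monic ∧ (f /ₘ D).natDegree = n - D.natDegree ∧ twist D c f ∈ monics F n ∧
      twist D c f %ₘ D = C c * (f %ₘ D) ∧ twist D c f /ₘ D = f /ₘ D := by
  rw [mem_monics] at hf
  obtain ⟨hfm, hfn⟩ := hf
  have h1 : (f /ₘ D).natDegree = n - D.natDegree := by rw [natDegree_divByMonic f hD, hfn]
  have h2 : (f /ₘ D).Monic := by
    have := leadingCoeff_divByMonic_of_monic hD (p := f) (by
      rw [degree_eq_natDegree hD.ne_zero, degree_eq_natDegree hfm.ne_zero, hfn]
      exact_mod_cast hn)
    rw [Monic, this, hfm.leadingCoeff]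
  have h3 : (C c * (f %ₘ D)).degree < D.degree :=
    lt_of_le_of_lt ((degree_mul_le _ _).trans (add_le_of_nonpos_left degree_C_le))
      (degree_modByMonic_lt f hD)
  have h4 := div_modByMonic_unique (f := twist D c f) (f /ₘ D) (C c * (f %ₘ D)) hD
    ⟨rfl, h3⟩
  have h5 : (D * (f /ₘ D)).Monic := hD.mul h2
  have h6 : (D * (f /ₘ D)).natDegree = n := by
    rw [hD.natDegree_mul h2, h1]; omega
  have h7 : (C c * (f %ₘ D)).degree < (D * (f /ₘ D)).degree := by
    refine lt_of_lt_of_le h3 ?_
    rw [degree_eq_natDegree hD.ne_zero, degree_eq_natDegree h5.ne_zero, h6]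
    exact_mod_cast hn
  refine ⟨h2, h1, ?_, h4.2, h4.1⟩
  rw [mem_monics]
  constructor
  · exact h5.add_of_right h7
  · rw [twist, natDegree_add_eq_right_of_degree_lt h7, h6]

lemma chi_twist (hq : Odd (Fintype.card F)) (D : F[X]) (hD : D.Monic) (c : F) (n : ℕ)
    (hn : D.natDegree ≤ n) (f : F[X]) (hf : f ∈ monics F n) :
    chi D (twist D c f) = quadraticChar F c ^ D.natDegree * chi D f := by
  obtain ⟨h1, h2, h3, -, -⟩ := twist_spec D hD c n hn f hf
  rw [mem_monics] at h3 hf
  have hfe : f = (f %ₘ D) + D * (f /ₘ D) := (modByMonic_add_div f D).symm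
  rw [chi_resultant hq D _ h3.1, chi_resultant hq D f hf.1, h3.2, hf.2]
  have e1 : resultant (twist D c f) D n D.natDegree =
      c ^ D.natDegree * resultant (f %ₘ D) D n D.natDegree := by
    rw [twist, resultant_add_mul_left _ _ _ _ _ (by rw [h2]; omega) le_rfl,
      resultant_C_mul_left]
  have e2 : resultant f D n D.natDegree = resultant (f %ₘ D) D n D.natDegree := by
    conv_lhs => rw [hfe]
    rw [resultant_add_mul_left _ _ _ _ _ (by rw [h2]; omega) le_rfl]
  rw [e1, e2, map_mul, map_pow]

/-- **Vanishing**: for `D` monic of odd degree the coefficient of `q^(-ns)` in `L(s, χ_D)` is `0`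
for `n ≥ deg D`. -/
theorem coef_eq_zero (hq : Odd (Fintype.card F)) (D : F[X]) (hD : D.Monic)
    (hodd : Odd D.natDegree) (n : ℕ) (hn : D.natDegree ≤ n) : coef D n = 0 := by
  have hF2 : ringChar F ≠ 2 := ringChar_ne_two_of_odd F hq
  obtain ⟨c, hc⟩ := quadraticChar_exists_neg_one hF2
  have hc0 : c ≠ 0 := by
    rintro rfl
    rw [quadraticChar_zero] at hc
    norm_num at hc
  have key : coef D n = -coef D n := by
    unfold coef
    rw [← Finset.sum_neg_distrib]
    symm
    refine Finset.sum_bij' (fun f _ => twist D c f) (fun f _ => twist D c⁻¹ f) ?_ ?_ ?_ ?_ ?_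
    · intro f hf
      exact (twist_spec D hD c n hn f hf).2.2.1
    · intro f hf
      exact (twist_spec D hD c⁻¹ n hn f hf).2.2.1
    · intro f hf
      obtain ⟨-, -, -, h4, h5⟩ := twist_spec D hD c n hn f hf
      rw [twist, h4, h5, ← mul_assoc, ← C_mul, inv_mul_cancel₀ hc0, C_1, one_mul]
      exact modByMonic_add_div f D
    · intro f hf
      obtain ⟨-, -, -, h4, h5⟩ := twist_spec D hD c⁻¹ n hn f hf
      rw [twist, h4, h5, ← mul_assoc, ← C_mul, mul_inv_cancel₀ hc0, C_1, one_mul]
      exact modByMonic_add_div f D
    · intro f hf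
      rw [chi_twist hq D hD c n hn f hf, hc, hodd.neg_one_pow]
      ring
  linarith

end Pool.Agent.H69.Ratios
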