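import Pool.Agent.H69.Ratios.Defs

/-!
# The main terms are bounded
-/

set_option autoImplicit false
set_option linter.unusedSectionVars false

open Polynomial Finset Filter Topology
open scoped Classical

namespace Pool.Agent.H69.Ratios

variable {F : Type} [Field F] [Fintype F]

lemma card_monics_le (n : ℕ) : (monics F n).card ≤ Fintype.card F ^ n := by
  have h : (monics F n).card ≤ (univ : Finset (Fin n → F)).card := by
    apply Finset.card_le_card_of_injOn (fun f (i : Fin n) => f.coeff i)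
    · intro f _
      exact mem_coe.mpr (mem_univ _)
    · intro f hf g hg hfg
      rw [mem_coe, mem_monics] at hf hg
      ext i
      rcases lt_trichotomy i n with h | h | h
      · exact congrFun hfg ⟨i, h⟩
      · subst h
        have h1 : f.coeff i = 1 := by
          have := hf.1.coeff_natDegree
          rwa [hf.2] at this
        have h2 : g.coeff i = 1 := by
          have := hg.1.coeff_natDegree
          rwa [hg.2] at this
        rw [h1, h2]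
      · rw [coeff_eq_zero_of_natDegree_lt (by rw [hf.2]; exact h),
          coeff_eq_zero_of_natDegree_lt (by rw [hg.2]; exact h)]
  refine h.trans ?_
  rw [Finset.card_univ, Fintype.card_fun, Fintype.card_fin]

lemma three_le_card (hq : Odd (Fintype.card F)) : 3 ≤ Fintype.card F := by
  have h1 : 1 < Fintype.card F := Fintype.one_lt_card
  obtain ⟨k, hk⟩ := hq
  omega

/-- `q^(-3/4) ≤ 1/2` for `q ≥ 3` -/
lemma rpow_le_half (x : ℝ) (hx : 3 ≤ x) : x ^ (-(3 / 4) : ℝ) ≤ 1 / 2 := by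
  have hx0 : 0 < x := by linarith
  rw [Real.rpow_neg hx0.le, one_div]
  apply inv_anti₀ (by norm_num)
  have h1 : (2 : ℝ) = ((2 : ℝ) ^ (4 / 3 : ℝ)) ^ (3 / 4 : ℝ) := by
    rw [← Real.rpow_mul (by norm_num)]; norm_num
  rw [h1]
  apply Real.rpow_le_rpow (by positivity) _ (by norm_num)
  refine le_trans ?_ hx
  have h2 : (3 : ℝ) = ((3 : ℝ) ^ (3 : ℝ)) ^ (1 / 3 : ℝ) := by
    rw [← Real.rpow_mul (by norm_num)]; norm_num
  have h3 : (2 : ℝ) ^ (4 / 3 : ℝ) = ((2 : ℝ) ^ (4 : ℝ)) ^ (1 / 3 : ℝ) := by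
    rw [← Real.rpow_mul (by norm_num)]; norm_num
  rw [h3]
  conv_rhs => rw [h2]
  apply Real.rpow_le_rpow (by positivity) _ (by norm_num)
  norm_num

/-- the norm as a real number -/
noncomputable def rn (P : F[X]) : ℝ := (Fintype.card F : ℝ) ^ P.natDegree

lemma nrm_eq (P : F[X]) : nrm P = ((rn P : ℝ) : ℂ) := by
  simp [nrm, rn]

lemma rn_ge (hq : Odd (Fintype.card F)) (P : F[X]) (hP : Irreducible P) : 3 ≤ rn P := by
  have h1 : (3 : ℝ) ≤ Fintype.card F := by exact_mod_cast three_le_card hq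
  calc (3 : ℝ) ≤ Fintype.card F := h1
    _ = (Fintype.card F : ℝ) ^ 1 := (pow_one _).symm
    _ ≤ rn P := pow_le_pow_right₀ (by linarith) hP.natDegree_pos

lemma sum_rn_le (hq : Odd (Fintype.card F)) (s : Finset {P : F[X] // P.Monic ∧ Irreducible P}) :
    ∑ P ∈ s, (rn P.1) ^ (-(7 / 4) : ℝ) ≤ 2 := by
  have hq3 : (3 : ℝ) ≤ Fintype.card F := by exact_mod_cast three_le_card hq
  have hq0 : (0 : ℝ) < Fintype.card F := by linarith
  obtain ⟨N, hN⟩ : ∃ N, ∀ P ∈ s, P.1.natDegree < N := by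
    refine ⟨s.sup (fun P => P.1.natDegree) + 1, fun P hP => ?_⟩
    have := Finset.le_sup (f := fun P : {P : F[X] // P.Monic ∧ Irreducible P} =>
      P.1.natDegree) hP
    omega
  have h1 : ∑ P ∈ s, (rn P.1) ^ (-(7 / 4) : ℝ) ≤
      ∑ n ∈ range N, ∑ f ∈ monics F n, (rn f) ^ (-(7 / 4) : ℝ) := by
    have h2 : ∑ P ∈ s, (rn P.1) ^ (-(7 / 4) : ℝ) =
        ∑ f ∈ s.image (fun P => P.1), (rn f) ^ (-(7 / 4) : ℝ) := by
      rw [Finset.sum_image]
      intro P _ Q _ h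
      exact Subtype.ext h
    rw [h2]
    rw [← Finset.sum_biUnion]
    · apply Finset.sum_le_sum_of_subset_of_nonneg
      · intro f hf
        rw [mem_image] at hf
        obtain ⟨P, hP, rfl⟩ := hf
        rw [mem_biUnion]
        exact ⟨P.1.natDegree, mem_range.mpr (hN P hP), mem_monics.mpr ⟨P.2.1, rfl⟩⟩
      · intro f _ _
        apply Real.rpow_nonneg
        unfold rn
        positivity
    · intro i _ j _ hij
      rw [Function.onFun, Finset.disjoint_left]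
      intro f hf hf'
      rw [mem_monics] at hf hf'
      exact hij (by rw [← hf.2, hf'.2])
  refine h1.trans ?_
  have h3 : ∀ n ∈ range N, ∑ f ∈ monics F n, (rn f) ^ (-(7 / 4) : ℝ) ≤
      ((Fintype.card F : ℝ) ^ (-(3 / 4) : ℝ)) ^ n := by
    intro n _
    have h4 : ∀ f ∈ monics F n, (rn f) ^ (-(7 / 4) : ℝ) =
        ((Fintype.card F : ℝ) ^ n) ^ (-(7 / 4) : ℝ) := by
      intro f hf
      rw [mem_monics] at hf
      rw [rn, hf.2]
    rw [Finset.sum_congr rfl h4, Finset.sum_const, nsmul_eq_mul]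
    have h5 : ((monics F n).card : ℝ) ≤ (Fintype.card F : ℝ) ^ n := by
      exact_mod_cast card_monics_le n
    have h6 : (0 : ℝ) < (Fintype.card F : ℝ) ^ n := by positivity
    calc ((monics F n).card : ℝ) * ((Fintype.card F : ℝ) ^ n) ^ (-(7 / 4) : ℝ) ≤
        (Fintype.card F : ℝ) ^ n * ((Fintype.card F : ℝ) ^ n) ^ (-(7 / 4) : ℝ) :=
          mul_le_mul_of_nonneg_right h5 (Real.rpow_nonneg h6.le _)
      _ = ((Fintype.card F : ℝ) ^ n) ^ (-(3 / 4) : ℝ) := by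
          conv_lhs => enter [1]; rw [← Real.rpow_one ((Fintype.card F : ℝ) ^ n)]
          rw [← Real.rpow_add h6]
          norm_num
      _ = ((Fintype.card F : ℝ) ^ (-(3 / 4) : ℝ)) ^ n := by
          rw [← Real.rpow_natCast, ← Real.rpow_natCast, ← Real.rpow_mul hq0.le,
            ← Real.rpow_mul hq0.le, mul_comm]
  refine (Finset.sum_le_sum h3).trans ?_
  have h7 := rpow_le_half _ hq3
  have h8 : (0 : ℝ) ≤ (Fintype.card F : ℝ) ^ (-(3 / 4) : ℝ) := Real.rpow_nonneg hq0.le _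
  calc ∑ n ∈ range N, ((Fintype.card F : ℝ) ^ (-(3 / 4) : ℝ)) ^ n ≤
      ∑ n ∈ range N, (1 / 2 : ℝ) ^ n :=
        Finset.sum_le_sum fun n _ => pow_le_pow_left₀ h8 h7 n
    _ ≤ 2 := by
        have := geom_sum_eq (show (1 / 2 : ℝ) ≠ 1 by norm_num) N
        rw [this]
        have h9 : (0 : ℝ) ≤ (1 / 2 : ℝ) ^ N := by positivity
        rw [div_le_iff_of_neg (by norm_num)]
        linarith

/-- the Euler factor -/
lemma factor_bound (x a b : ℝ) (hx : 3 ≤ x) (ha : -(1 / 8) ≤ a) (hb : 0 < b) :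
    ‖(1 - (x : ℂ) ^ (-1 - 2 * (a : ℂ)) * ((x : ℂ) + 1)⁻¹ -
      (x : ℂ) ^ (-(a : ℂ) - b) * ((x : ℂ) + 1)⁻¹) / (1 - (x : ℂ) ^ (-1 - (a : ℂ) - b)) - 1‖ ≤
      2 * x ^ (-(7 / 4) : ℝ) := by
  have hx0 : 0 < x := by linarith
  have e1 : (x : ℂ) ^ (-1 - 2 * (a : ℂ)) = ((x ^ (-1 - 2 * a) : ℝ) : ℂ) := by
    rw [Complex.ofReal_cpow hx0.le]; push_cast; rfl
  have e2 : (x : ℂ) ^ (-(a : ℂ) - b) = ((x ^ (-a - b) : ℝ) : ℂ) := by
    rw [Complex.ofReal_cpow hx0.le]; push_cast; rfl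
  have e3 : (x : ℂ) ^ (-1 - (a : ℂ) - b) = ((x ^ (-1 - a - b) : ℝ) : ℂ) := by
    rw [Complex.ofReal_cpow hx0.le]; push_cast; rfl
  rw [e1, e2, e3]
  obtain ⟨y, hy⟩ : ∃ y, y = x ^ (-1 - a - b) := ⟨_, rfl⟩
  obtain ⟨z, hz⟩ : ∃ z, z = x ^ (-1 - 2 * a) := ⟨_, rfl⟩
  have hyx : x ^ (-a - b) = x * y := by
    rw [hy]
    conv_rhs => enter [1]; rw [← Real.rpow_one x]
    rw [← Real.rpow_add hx0]
    congr 1
    ring
  rw [hyx, ← hy, ← hz]
  have hx1 : (1 : ℝ) ≤ x := by linarith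
  have hy0 : 0 < y := by rw [hy]; exact Real.rpow_pos_of_pos hx0 _
  have hz0 : 0 < z := by rw [hz]; exact Real.rpow_pos_of_pos hx0 _
  have hy1 : y ≤ x ^ (-(3 / 4) : ℝ) := by
    rw [hy]; exact Real.rpow_le_rpow_of_exponent_le hx1 (by linarith)
  have hz1 : z ≤ x ^ (-(3 / 4) : ℝ) := by
    rw [hz]; exact Real.rpow_le_rpow_of_exponent_le hx1 (by linarith)
  have hhalf := rpow_le_half x hx
  have hy2 : y ≤ 1 / 2 := hy1.trans hhalf
  have e4 : ((1 : ℂ) - (z : ℂ) * ((x : ℂ) + 1)⁻¹ - ((x * y : ℝ) : ℂ) * ((x : ℂ) + 1)⁻¹) /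
      (1 - (y : ℂ)) - 1 = (((y - z) / ((x + 1) * (1 - y)) : ℝ) : ℂ) := by
    have h1 : (x : ℂ) + 1 ≠ 0 := by
      have : ((x + 1 : ℝ) : ℂ) ≠ 0 := by
        rw [Complex.ofReal_ne_zero]; positivity
      push_cast at this
      exact this
    have h2 : (1 : ℂ) - y ≠ 0 := by
      have : ((1 - y : ℝ) : ℂ) ≠ 0 := by
        rw [Complex.ofReal_ne_zero]; linarith
      push_cast at this
      exact this
    push_cast
    field_simp
    ring
  rw [e4, Complex.norm_real, Real.norm_eq_abs, abs_div,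
    abs_of_pos (show 0 < (x + 1) * (1 - y) by nlinarith), div_le_iff₀ (by nlinarith)]
  have h5 : |y - z| ≤ x ^ (-(3 / 4) : ℝ) := by
    rw [abs_le]; constructor <;> linarith
  have h6 : x ^ (-(7 / 4) : ℝ) * x = x ^ (-(3 / 4) : ℝ) := by
    conv_lhs => enter [2]; rw [← Real.rpow_one x]
    rw [← Real.rpow_add hx0]
    norm_num
  have h7 : 0 < x ^ (-(7 / 4) : ℝ) := Real.rpow_pos_of_pos hx0 _
  calc |y - z| ≤ x ^ (-(3 / 4) : ℝ) := h5
    _ = x ^ (-(7 / 4) : ℝ) * x := h6.symm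
    _ ≤ 2 * x ^ (-(7 / 4) : ℝ) * ((x + 1) * (1 - y)) := by
        have h8 : x ≤ 2 * ((x + 1) * (1 - y)) := by nlinarith
        nlinarith

lemma eulerA_bound (hq : Odd (Fintype.card F)) (a b : ℝ) (ha : -(1 / 8) ≤ a) (hb : 0 < b) :
    ‖eulerA F a b‖ ≤ Real.exp 4 := by
  unfold eulerA
  obtain ⟨f, hf⟩ : ∃ f : {P : F[X] // P.Monic ∧ Irreducible P} → ℂ, f = fun P =>
    (1 - nrm P.1 ^ (-1 - 2 * (a : ℂ)) * (nrm P.1 + 1)⁻¹ -
      nrm P.1 ^ (-(a : ℂ) - b) * (nrm P.1 + 1)⁻¹) /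
      (1 - nrm P.1 ^ (-1 - (a : ℂ) - b)) := ⟨_, rfl⟩
  rw [← hf]
  have hterm : ∀ P, ‖f P - 1‖ ≤ 2 * (rn P.1) ^ (-(7 / 4) : ℝ) := by
    intro P
    rw [hf]
    simp only [nrm_eq]
    exact factor_bound _ a b (rn_ge hq P.1 P.2.2) ha hb
  have hpart : ∀ s : Finset {P : F[X] // P.Monic ∧ Irreducible P},
      ‖∏ P ∈ s, f P‖ ≤ Real.exp 4 := by
    intro s
    have h1 := s.norm_prod_one_add_sub_one_le (fun P => f P - 1)
    simp only [add_sub_cancel] at h1
    have h2 : ∑ P ∈ s, ‖f P - 1‖ ≤ 4 := by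
      calc ∑ P ∈ s, ‖f P - 1‖ ≤ ∑ P ∈ s, 2 * (rn P.1) ^ (-(7 / 4) : ℝ) :=
            Finset.sum_le_sum fun P _ => hterm P
        _ = 2 * ∑ P ∈ s, (rn P.1) ^ (-(7 / 4) : ℝ) := by rw [Finset.mul_sum]
        _ ≤ 2 * 2 := mul_le_mul_of_nonneg_left (sum_rn_le hq s) (by norm_num)
        _ = 4 := by norm_num
    have h3 : Real.exp (∑ P ∈ s, ‖f P - 1‖) ≤ Real.exp 4 := Real.exp_le_exp.mpr h2
    have h4 : ‖∏ P ∈ s, f P‖ ≤ ‖∏ P ∈ s, f P - 1‖ + 1 := by
      have := norm_add_le (∏ P ∈ s, f P - 1) (1 : ℂ)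
      simp only [sub_add_cancel, norm_one] at this
      exact this
    linarith
  by_cases hm : Multipliable f
  · have h1 : Tendsto (fun s : Finset {P : F[X] // P.Monic ∧ Irreducible P} =>
        ‖∏ P ∈ s, f P‖) atTop (𝓝 ‖∏' P, f P‖) := by
      have := hm.hasProd
      rw [HasProd, SummationFilter.unconditional_filter] at this
      exact this.norm
    exact le_of_tendsto h1 (Filter.Eventually.of_forall hpart)
  · rw [tprod_eq_one_of_not_multipliable hm, norm_one]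
    have := Real.add_one_le_exp (4 : ℝ)
    linarith

/-- a bound for the main terms -/
noncomputable def mainBound (F : Type) [Fintype F] : ℝ :=
  Real.exp 4 * 8 + Real.exp 4 * (7 * (1 + Fintype.card F))

lemma zetaF_div (s t : ℝ) :
    ‖zetaF F (s : ℂ) / zetaF F (t : ℂ)‖ =
      |1 - (Fintype.card F : ℝ) ^ (1 - t)| / |1 - (Fintype.card F : ℝ) ^ (1 - s)| := by
  have hq0 : (0 : ℝ) ≤ Fintype.card F := by positivity
  have e : ∀ r : ℝ, zetaF F (r : ℂ) = (((1 - (Fintype.card F : ℝ) ^ (1 - r))⁻¹ : ℝ) : ℂ) := by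
    intro r
    unfold zetaF
    push_cast
    rw [Complex.ofReal_cpow hq0]
    push_cast
    rfl
  rw [e, e, ← Complex.ofReal_div, Complex.norm_real, Real.norm_eq_abs, abs_div, abs_inv, abs_inv,
    inv_div_inv]

lemma mainTerms_bound (hq : Odd (Fintype.card F)) (g : ℕ) (a b : ℝ) (ha : 1 / 16 ≤ a)
    (ha' : a ≤ 1 / 8) (hb : 0 < b) (hb' : b < 1 / 4) :
    ‖mainTerms F g a b‖ ≤ mainBound F := by
  have hq3 : (3 : ℝ) ≤ Fintype.card F := by exact_mod_cast three_le_card hq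
  have hq0 : (0 : ℝ) < Fintype.card F := by linarith
  have hq1 : (1 : ℝ) ≤ Fintype.card F := by linarith
  obtain ⟨q, hqdef⟩ : ∃ q : ℝ, q = (Fintype.card F : ℝ) := ⟨_, rfl⟩
  have hA1 := eulerA_bound hq a b (by linarith) hb
  have hA2 := eulerA_bound hq (-a) b (by linarith) hb
  have e1 : ((-a : ℝ) : ℂ) = -(a : ℂ) := by push_cast; rfl
  rw [e1] at hA2
  have z1 := zetaF_div (F := F) (1 + 2 * a) (1 + a + b)
  have z2 := zetaF_div (F := F) (1 - 2 * a) (1 - a + b)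
  push_cast at z1 z2
  rw [← hqdef] at hq3 hq0 hq1 z1 z2
  -- `q^(-2a) ≤ 7/8`
  have hx18 : (8 / 7 : ℝ) ≤ q ^ (1 / 8 : ℝ) := by
    have h1 : (8 / 7 : ℝ) = ((8 / 7 : ℝ) ^ (8 : ℝ)) ^ (1 / 8 : ℝ) := by
      rw [← Real.rpow_mul (by norm_num)]; norm_num
    rw [h1]
    apply Real.rpow_le_rpow (by positivity) _ (by norm_num)
    refine le_trans ?_ hq3
    norm_num
  have hq2a : (8 / 7 : ℝ) ≤ q ^ (2 * a) :=
    hx18.trans (Real.rpow_le_rpow_of_exponent_le hq1 (by linarith))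
  have hqm2a : q ^ (-(2 * a)) ≤ 7 / 8 := by
    rw [Real.rpow_neg hq0.le]
    have := inv_anti₀ (by norm_num) hq2a
    norm_num at this
    exact this
  have b1 : ‖zetaF F (1 + 2 * (a : ℂ)) / zetaF F (1 + (a : ℂ) + b)‖ ≤ 8 := by
    rw [z1]
    have h1 : (1 : ℝ) - (1 + 2 * a) = -(2 * a) := by ring
    have h2 : (1 : ℝ) - (1 + a + b) = -(a + b) := by ring
    rw [h1, h2]
    have h3 : 0 < q ^ (-(a + b)) := Real.rpow_pos_of_pos hq0 _
    have h4 : q ^ (-(a + b)) ≤ 1 := Real.rpow_le_one_of_one_le_of_nonpos hq1 (by linarith)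
    have h5 : 0 < q ^ (-(2 * a)) := Real.rpow_pos_of_pos hq0 _
    rw [abs_of_nonneg (by linarith), abs_of_nonneg (by linarith), div_le_iff₀ (by linarith)]
    linarith
  have b2 : ‖zetaF F (1 - 2 * (a : ℂ)) / zetaF F (1 - (a : ℂ) + b)‖ ≤ 7 * (1 + q) := by
    rw [z2]
    have h1 : (1 : ℝ) - (1 - 2 * a) = 2 * a := by ring
    have h2 : (1 : ℝ) - (1 - a + b) = a - b := by ring
    rw [h1, h2]
    have h3 : 0 < q ^ (a - b) := Real.rpow_pos_of_pos hq0 _
    have h4 : q ^ (a - b) ≤ q := by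
      calc q ^ (a - b) ≤ q ^ (1 : ℝ) := Real.rpow_le_rpow_of_exponent_le hq1 (by linarith)
        _ = q := Real.rpow_one q
    have h5 : |1 - q ^ (2 * a)| = q ^ (2 * a) - 1 := by
      rw [abs_sub_comm, abs_of_nonneg (by linarith)]
    have h6 : |1 - q ^ (a - b)| ≤ 1 + q := by
      rw [abs_le]; constructor <;> linarith
    rw [h5, div_le_iff₀ (by linarith)]
    nlinarith
  have b3 : ‖(Fintype.card F : ℂ) ^ (-2 * (g : ℂ) * a)‖ ≤ 1 := by
    have h1 : (Fintype.card F : ℂ) ^ (-2 * (g : ℂ) * a) = ((q ^ (-2 * g * a) : ℝ) : ℂ) := by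
      rw [Complex.ofReal_cpow hq0.le, hqdef]; push_cast; rfl
    rw [h1, Complex.norm_real, Real.norm_eq_abs, abs_of_nonneg (Real.rpow_nonneg hq0.le _)]
    apply Real.rpow_le_one_of_one_le_of_nonpos hq1
    have : 0 ≤ (g : ℝ) * a := by positivity
    linarith
  unfold mainTerms mainBound
  have hexp : 0 < Real.exp 4 := Real.exp_pos 4
  refine (norm_add_le _ _).trans (add_le_add ?_ ?_)
  · rw [norm_mul]
    exact mul_le_mul hA1 b1 (norm_nonneg _) hexp.le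
  · rw [norm_mul, norm_mul, ← hqdef]
    calc ‖(Fintype.card F : ℂ) ^ (-2 * (g : ℂ) * a)‖ * ‖eulerA F (-(a : ℂ)) b‖ *
          ‖zetaF F (1 - 2 * (a : ℂ)) / zetaF F (1 - (a : ℂ) + b)‖ ≤
        1 * Real.exp 4 * (7 * (1 + q)) := by
          apply mul_le_mul _ b2 (norm_nonneg _) (by positivity)
          exact mul_le_mul b3 hA2 (norm_nonneg _) (by norm_num)
      _ = Real.exp 4 * (7 * (1 + q)) := by ring

end Pool.Agent.H69.Ratios
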