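import Mathlib

/-!
# Bounded mean ratios force nonvanishing

If `∑ p_i(v)/p_i(u)` stays bounded as `u → u₀` for infinitely many `v`, then no `p_i` vanishes
at `u₀`.
-/

set_option autoImplicit false

open Polynomial Filter Topology

namespace Pool.Agent.H69.Ratios

lemma no_zero {ι : Type} (s : Finset ι) (p : ι → ℝ[X]) (hp : ∀ i ∈ s, p i ≠ 0) (u0 : ℝ)
    (V : Set ℝ) (hV : V.Infinite)
    (hb : ∀ v ∈ V, ∃ B : ℝ, ∀ᶠ u in 𝓝[≠] u0, |∑ i ∈ s, (p i).eval v / (p i).eval u| ≤ B) :
    ∀ i ∈ s, (p i).eval u0 ≠ 0 := by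
  classical
  by_contra hcon
  push Not at hcon
  obtain ⟨i0, hi0, hz0⟩ := hcon
  -- factor out the zeros
  have hfac : ∀ i ∈ s, ∃ c : ℝ[X], p i = (X - C u0) ^ (rootMultiplicity u0 (p i)) * c ∧
      c.eval u0 ≠ 0 := by
    intro i hi
    obtain ⟨c, hc, hnd⟩ := exists_eq_pow_rootMultiplicity_mul_and_not_dvd (p i) (hp i hi) u0
    refine ⟨c, hc, ?_⟩
    intro h
    exact hnd (dvd_iff_isRoot.mpr h)
  choose! c hc hcne using hfac
  obtain ⟨M, hM⟩ : ∃ M, M = s.sup (fun i => rootMultiplicity u0 (p i)) := ⟨_, rfl⟩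
  have hle : ∀ i ∈ s, rootMultiplicity u0 (p i) ≤ M := by
    intro i hi
    rw [hM]
    exact Finset.le_sup (f := fun i => rootMultiplicity u0 (p i)) hi
  have hMpos : 0 < M := by
    have h1 : 0 < rootMultiplicity u0 (p i0) := (rootMultiplicity_pos (hp i0 hi0)).mpr hz0
    exact lt_of_lt_of_le h1 (hle i0 hi0)
  obtain ⟨i1, hi1, hM1⟩ : ∃ i1 ∈ s, rootMultiplicity u0 (p i1) = M := by
    rw [hM]
    obtain ⟨i1, h1, h2⟩ := Finset.exists_mem_eq_sup s ⟨i0, hi0⟩
      (fun i => rootMultiplicity u0 (p i))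
    exact ⟨i1, h1, h2.symm⟩
  obtain ⟨T, hT⟩ : ∃ T, T = s.filter (fun i => rootMultiplicity u0 (p i) = M) := ⟨_, rfl⟩
  -- the limiting identity
  have hlim : ∀ v ∈ V, ∑ i ∈ T, (p i).eval v / (c i).eval u0 = 0 := by
    intro v hv
    obtain ⟨B, hB⟩ := hb v hv
    have h1 : Tendsto (fun u : ℝ => (u - u0) ^ M *
        ∑ i ∈ s, (p i).eval v / (p i).eval u) (𝓝[≠] u0) (𝓝 0) := by
      have h2 : Tendsto (fun u : ℝ => |u - u0| ^ M * B) (𝓝[≠] u0) (𝓝 0) := by
        have h3 : Tendsto (fun u : ℝ => |u - u0| ^ M * B) (𝓝 u0) (𝓝 (|u0 - u0| ^ M * B)) := by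
          apply Continuous.tendsto
          fun_prop
        rw [sub_self, abs_zero, zero_pow hMpos.ne', zero_mul] at h3
        exact h3.mono_left nhdsWithin_le_nhds
      apply squeeze_zero_norm' _ h2
      filter_upwards [hB] with u hu
      rw [Real.norm_eq_abs, abs_mul, abs_pow]
      exact mul_le_mul_of_nonneg_left hu (by positivity)
    have h2 : Tendsto (fun u : ℝ => (u - u0) ^ M *
        ∑ i ∈ s, (p i).eval v / (p i).eval u) (𝓝[≠] u0)
        (𝓝 (∑ i ∈ T, (p i).eval v / (c i).eval u0)) := by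
      have h3 : ∑ i ∈ T, (p i).eval v / (c i).eval u0 =
          ∑ i ∈ s, (if rootMultiplicity u0 (p i) = M then (p i).eval v / (c i).eval u0
            else 0) := by
        rw [hT, Finset.sum_filter]
      rw [h3]
      simp only [Finset.mul_sum]
      apply tendsto_finsetSum
      intro i hi
      have h4 : ∀ᶠ u in 𝓝[≠] u0, (u - u0) ^ M * ((p i).eval v / (p i).eval u) =
          (u - u0) ^ (M - rootMultiplicity u0 (p i)) * ((p i).eval v / (c i).eval u) := by
        filter_upwards [self_mem_nhdsWithin] with u hu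
        have hu' : u - u0 ≠ 0 := sub_ne_zero.mpr hu
        have e1 : (p i).eval u = (u - u0) ^ (rootMultiplicity u0 (p i)) * (c i).eval u := by
          conv_lhs => rw [hc i hi]
          simp
        have e2 : (u - u0) ^ M = (u - u0) ^ (M - rootMultiplicity u0 (p i)) *
            (u - u0) ^ (rootMultiplicity u0 (p i)) := by
          rw [← pow_add, Nat.sub_add_cancel (hle i hi)]
        rw [e1, e2]
        by_cases hcu : (c i).eval u = 0
        · rw [hcu]; simp
        · field_simp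
      rw [tendsto_congr' h4]
      have h5 : Tendsto (fun u : ℝ => (u - u0) ^ (M - rootMultiplicity u0 (p i)) *
          ((p i).eval v / (c i).eval u)) (𝓝 u0)
          (𝓝 ((u0 - u0) ^ (M - rootMultiplicity u0 (p i)) *
            ((p i).eval v / (c i).eval u0))) := by
        have hcont : ContinuousAt (fun u : ℝ => (c i).eval u) u0 :=
          (c i).continuous.continuousAt
        have h6 : ContinuousAt (fun u : ℝ => (p i).eval v / (c i).eval u) u0 :=
          continuousAt_const.div hcont (hcne i hi)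
        have h7 : ContinuousAt (fun u : ℝ => (u - u0) ^ (M - rootMultiplicity u0 (p i))) u0 := by
          fun_prop
        exact (h7.mul h6).tendsto
      have h6 := h5.mono_left (nhdsWithin_le_nhds (s := {u0}ᶜ))
      convert! h6 using 2
      split_ifs with h7
      · rw [h7, Nat.sub_self, pow_zero, one_mul]
      · rw [sub_self, zero_pow, zero_mul]
        have := hle i hi
        omega
    exact tendsto_nhds_unique h2 h1
  -- the polynomial identity
  obtain ⟨Q, hQ⟩ : ∃ Q : ℝ[X], Q = ∑ i ∈ T, C ((c i).eval u0)⁻¹ * p i := ⟨_, rfl⟩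
  have hQ0 : Q = 0 := by
    apply eq_zero_of_infinite_isRoot
    refine hV.mono ?_
    intro v hv
    have := hlim v hv
    simp only [IsRoot.def, Set.mem_ofPred_eq, hQ, eval_finsetSum, eval_mul, eval_C]
    rw [← this]
    refine Finset.sum_congr rfl fun i _ => ?_
    rw [div_eq_inv_mul]
  have hQ1 : Q = (X - C u0) ^ M * ∑ i ∈ T, C ((c i).eval u0)⁻¹ * c i := by
    rw [hQ, Finset.mul_sum]
    refine Finset.sum_congr rfl fun i hi => ?_
    rw [hT, Finset.mem_filter] at hi
    conv_lhs => rw [hc i hi.1, hi.2]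
    ring
  have hR : ∑ i ∈ T, C ((c i).eval u0)⁻¹ * c i = 0 := by
    rw [hQ0] at hQ1
    rcases mul_eq_zero.mp hQ1.symm with h | h
    · exfalso
      exact pow_ne_zero M (X_sub_C_ne_zero u0) h
    · exact h
  have hev := congrArg (eval u0) hR
  rw [eval_finsetSum, eval_zero] at hev
  have h1 : ∀ i ∈ T, (C ((c i).eval u0)⁻¹ * c i).eval u0 = 1 := by
    intro i hi
    rw [hT, Finset.mem_filter] at hi
    rw [eval_mul, eval_C, inv_mul_cancel₀ (hcne i hi.1)]
  rw [Finset.sum_congr rfl h1, Finset.sum_const, nsmul_eq_mul, mul_one] at hev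
  have h2 : T.card = 0 := by exact_mod_cast hev
  rw [Finset.card_eq_zero] at h2
  have h3 : i1 ∈ T := by
    rw [hT, Finset.mem_filter]
    exact ⟨hi1, hM1⟩
  rw [h2] at h3
  exact absurd h3 (Finset.notMem_empty _)

/-- constant sign on an interval without zeros -/
lemma ratio_pos (p : ℝ[X]) (a b : ℝ) (h : ∀ u ∈ Set.Ioo a b, p.eval u ≠ 0) (u v : ℝ)
    (hu : u ∈ Set.Ioo a b) (hv : v ∈ Set.Ioo a b) : 0 < p.eval v / p.eval u := by
  by_contra hcon
  push Not at hcon
  have hpu := h u hu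
  have hpv := h v hv
  have hneg : p.eval v * p.eval u ≤ 0 := by
    have h1 : p.eval v * p.eval u = (p.eval v / p.eval u) * (p.eval u) ^ 2 := by
      field_simp
    rw [h1]
    exact mul_nonpos_of_nonpos_of_nonneg hcon (sq_nonneg _)
  have hcont : ContinuousOn (fun x => p.eval x) (Set.uIcc u v) := p.continuous.continuousOn
  have hsub : Set.uIcc u v ⊆ Set.Ioo a b := by
    intro x hx
    rw [Set.mem_uIcc] at hx
    rcases hx with ⟨h1, h2⟩ | ⟨h1, h2⟩
    · exact ⟨lt_of_lt_of_le hu.1 h1, lt_of_le_of_lt h2 hv.2⟩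
    · exact ⟨lt_of_lt_of_le hv.1 h1, lt_of_le_of_lt h2 hu.2⟩
  have hmem : (0 : ℝ) ∈ Set.uIcc (p.eval u) (p.eval v) := by
    rw [Set.mem_uIcc]
    rcases lt_or_ge (p.eval u) 0 with h1 | h1
    · left
      refine ⟨h1.le, ?_⟩
      by_contra h2
      push Not at h2
      nlinarith [mul_pos_of_neg_of_neg h2 h1]
    · right
      refine ⟨?_, h1⟩
      by_contra h2
      push Not at h2
      have h3 : 0 < p.eval u := lt_of_le_of_ne h1 (Ne.symm hpu)
      nlinarith [mul_pos h2 h3]
  obtain ⟨x, hx, hx0⟩ := intermediate_value_uIcc hcont hmem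
  exact h x (hsub hx) hx0

end Pool.Agent.H69.Ratios
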