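import Pool.Agent.H69.Ratios.Special
import Pool.Agent.H69.Ratios.Vanish
import Pool.Agent.H69.Ratios.Positivity
import Pool.Agent.H69.Ratios.MainTerms

/-!
# The core inequality
-/

set_option autoImplicit false
set_option linter.unusedSectionVars false

open Polynomial Finset Filter Topology
open scoped Classical

namespace Pool.Agent.H69.Ratios

variable {F : Type} [Field F] [Fintype F]

/-- the `L`-polynomial -/
noncomputable def Lp (D : F[X]) : ℝ[X] :=
  ∑ n ∈ range D.natDegree, C (coef D n : ℝ) * X ^ n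

/-- the variable `q^(-(1/2+a))` -/
noncomputable def uu (F : Type) [Fintype F] (a : ℝ) : ℝ := (Fintype.card F : ℝ) ^ (-(1 / 2 + a))

lemma Lp_eval (D : F[X]) (u : ℝ) :
    (Lp D).eval u = ∑ n ∈ range D.natDegree, (coef D n : ℝ) * u ^ n := by
  simp [Lp, eval_finsetSum]

lemma Lp_ne_zero (D : F[X]) (hD : 0 < D.natDegree) : Lp D ≠ 0 := by
  intro h
  have h1 : (Lp D).eval 0 = 1 := by
    rw [Lp_eval, Finset.sum_eq_single 0]
    · simp [coef_zero]
    · intro b _ hb
      simp [hb]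
    · intro h
      exact absurd (mem_range.mpr hD) h
  rw [h, eval_zero] at h1
  exact zero_ne_one h1

lemma card_real_pos : (0 : ℝ) < Fintype.card F := by
  exact_mod_cast Fintype.card_pos

lemma card_real_gt : (1 : ℝ) < Fintype.card F := by
  exact_mod_cast Fintype.one_lt_card

lemma uu_pos (a : ℝ) : 0 < uu F a := Real.rpow_pos_of_pos card_real_pos _

lemma uu_lt {a b : ℝ} (h : a < b) : uu F b < uu F a :=
  Real.rpow_lt_rpow_of_exponent_lt card_real_gt (by linarith)

/-- every positive real is of the form `uu β` -/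
lemma exists_uu (u : ℝ) (hu : 0 < u) : ∃ β, uu F β = u := by
  have h1 := card_real_gt (F := F)
  refine ⟨-(Real.logb (Fintype.card F) u) - 1 / 2, ?_⟩
  unfold uu
  have : -(1 / 2 + (-(Real.logb (Fintype.card F) u) - 1 / 2)) =
      Real.logb (Fintype.card F) u := by ring
  rw [this]
  exact Real.rpow_logb (by linarith) (by linarith) hu

lemma lt_of_uu_lt {a b : ℝ} (h : uu F b < uu F a) : a < b := by
  by_contra hcon
  push Not at hcon
  rcases hcon.lt_or_eq with h1 | h1
  · exact absurd (uu_lt (F := F) h1) (not_lt.mpr h.le)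
  · rw [h1] at h; exact lt_irrefl _ h

lemma L_real (hq : Odd (Fintype.card F)) (D : F[X]) (hD : D.Monic) (hodd : Odd D.natDegree)
    (a : ℝ) : L D (1 / 2 + (a : ℂ)) = (((Lp D).eval (uu F a) : ℝ) : ℂ) := by
  unfold L
  rw [tsum_eq_sum (s := range D.natDegree), Lp_eval]
  · push_cast
    refine Finset.sum_congr rfl fun n _ => ?_
    congr 1
    have h1 : (-(n : ℂ) * (1 / 2 + (a : ℂ))) = (((-(1 / 2 + a)) * n : ℝ) : ℂ) := by
      push_cast; ring
    have h2 : (Fintype.card F : ℂ) = ((Fintype.card F : ℝ) : ℂ) := by push_cast; rfl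
    rw [h1, h2, ← Complex.ofReal_cpow card_real_pos.le, Real.rpow_mul card_real_pos.le,
      Real.rpow_natCast]
    unfold uu
    push_cast
    rfl
  · intro n hn
    rw [mem_range, not_lt] at hn
    rw [coef_eq_zero hq D hD hodd n hn]
    simp

lemma mem_ensemble {n : ℕ} {D : F[X]} :
    D ∈ ensemble F n ↔ D.Monic ∧ D.natDegree = n ∧ Squarefree D := by
  simp [ensemble, and_assoc]

lemma L_real' (hq : Odd (Fintype.card F)) (g : ℕ) (D : F[X]) (hD : D ∈ ensemble F (2 * g + 1))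
    (a : ℝ) : L D (1 / 2 + (a : ℂ)) = (((Lp D).eval (uu F a) : ℝ) : ℂ) := by
  rw [mem_ensemble] at hD
  exact L_real hq D hD.1 (by rw [hD.2.1]; exact ⟨g, rfl⟩) a

lemma ratioMean_real (hq : Odd (Fintype.card F)) (g : ℕ) (a b : ℝ) :
    ratioMean F g a b = (((∑ D ∈ ensemble F (2 * g + 1),
      (Lp D).eval (uu F a) / (Lp D).eval (uu F b)) / (ensemble F (2 * g + 1)).card : ℝ) : ℂ) := by
  unfold ratioMean
  push_cast
  congr 1
  refine Finset.sum_congr rfl fun D hD => ?_
  rw [L_real' hq g D hD, L_real' hq g D hD]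

/-- the `L`-polynomial of `x^(q^N) - x` -/
lemma Lp_D0 (hq : Odd (Fintype.card F)) (j k : ℕ) (hj : 0 < j)
    (hk : Fintype.card F ^ (2 ^ j) = k * 2 ^ (j + 1) + 1) (a : ℝ) :
    (Lp (D0 F (2 ^ j))).eval (uu F a) =
      (1 - (Fintype.card F : ℝ) ^ (-(2 * (2 : ℝ) ^ j * a))) ^ k := by
  obtain ⟨P, hP⟩ : ∃ P : ℤ[X], P = (1 - C ((Fintype.card F : ℤ) ^ (2 ^ j)) *
    X ^ (2 ^ (j + 1)) : ℤ[X]) ^ k := ⟨_, rfl⟩
  have hdeg : (P.map (Int.castRingHom ℝ)).natDegree < (D0 F (2 ^ j)).natDegree := by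
    rw [natDegree_D0 _ (by positivity), hk]
    refine lt_of_le_of_lt natDegree_map_le ?_
    rw [hP]
    refine lt_of_le_of_lt (natDegree_pow_le) ?_
    have h1 : (1 - C ((Fintype.card F : ℤ) ^ (2 ^ j)) * X ^ (2 ^ (j + 1)) : ℤ[X]).natDegree ≤
        2 ^ (j + 1) := by
      refine (natDegree_sub_le _ _).trans ?_
      rw [natDegree_one]
      exact max_le (Nat.zero_le _) (natDegree_C_mul_X_pow_le _ _)
    have h2 := Nat.mul_le_mul_left k h1
    omega
  have h1 : (Lp (D0 F (2 ^ j))).eval (uu F a) =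
      (P.map (Int.castRingHom ℝ)).eval (uu F a) := by
    rw [Lp_eval, eval_eq_sum_range' hdeg]
    refine Finset.sum_congr rfl fun n _ => ?_
    rw [coef_D0 hq j k hj hk n, coeff_map, ← hP]
    rfl
  rw [h1, hP]
  simp only [Polynomial.map_pow, Polynomial.map_sub, Polynomial.map_one, Polynomial.map_mul,
    Polynomial.map_X, map_C, eval_pow, eval_sub, eval_one, eval_mul, eval_C, eval_X]
  congr 2
  have h2 : (Int.castRingHom ℝ) ((Fintype.card F : ℤ) ^ 2 ^ j) =
      (Fintype.card F : ℝ) ^ 2 ^ j := by simp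
  rw [h2]
  unfold uu
  rw [← Real.rpow_natCast, ← Real.rpow_natCast, ← Real.rpow_mul card_real_pos.le,
    ← Real.rpow_add card_real_pos]
  congr 1
  push_cast
  ring

/-- **The core inequality.** -/
lemma core (hq : Odd (Fintype.card F)) (j k g : ℕ) (hj : 0 < j)
    (hk : Fintype.card F ^ (2 ^ j) = k * 2 ^ (j + 1) + 1)
    (hg : Fintype.card F ^ (2 ^ j) = 2 * g + 1) (b B : ℝ) (hb : 0 < b) (hb8 : b < 1 / 8)
    (h : ∀ a β : ℝ, 0 < a → a < 1 / 4 → b ≤ β → β < 1 / 4 →
      (∀ D ∈ ensemble F (2 * g + 1), L D (1 / 2 + (β : ℂ)) ≠ 0) →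
      ‖ratioMean F g a β - mainTerms F g a β‖ ≤ B) :
    ((1 - (Fintype.card F : ℝ) ^ (-(2 * (2 : ℝ) ^ j * (1 / 8)))) /
      (1 - (Fintype.card F : ℝ) ^ (-(2 * (2 : ℝ) ^ j * (2 * b))))) ^ k ≤
      (B + mainBound F) * (Fintype.card F : ℝ) ^ (2 * g + 1) := by
  have hmem : D0 F (2 ^ j) ∈ ensemble F (2 * g + 1) := by
    rw [mem_ensemble]
    exact ⟨monic_D0 _ (by positivity), by rw [natDegree_D0 _ (by positivity), hg],
      squarefree_D0 _ (by positivity)⟩
  have hcardpos : 0 < (ensemble F (2 * g + 1)).card := Finset.card_pos.mpr ⟨_, hmem⟩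
  obtain ⟨c, hc⟩ : ∃ c : ℝ, c = ((ensemble F (2 * g + 1)).card : ℝ) := ⟨_, rfl⟩
  have hcpos : 0 < c := by rw [hc]; exact_mod_cast hcardpos
  have hcle : c ≤ (Fintype.card F : ℝ) ^ (2 * g + 1) := by
    have h1 : (ensemble F (2 * g + 1)).card ≤ Fintype.card F ^ (2 * g + 1) :=
      (Finset.card_filter_le _ _).trans (card_monics_le _)
    rw [hc]
    exact_mod_cast h1
  have hLpne : ∀ D ∈ ensemble F (2 * g + 1), Lp D ≠ 0 := by
    intro D hD
    rw [mem_ensemble] at hD
    exact Lp_ne_zero D (by rw [hD.2.1]; omega)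
  -- the mean is bounded wherever it is defined
  have hbound : ∀ a β : ℝ, 1 / 16 ≤ a → a ≤ 1 / 8 → b ≤ β → β < 1 / 4 →
      (∀ D ∈ ensemble F (2 * g + 1), (Lp D).eval (uu F β) ≠ 0) →
      |∑ D ∈ ensemble F (2 * g + 1), (Lp D).eval (uu F a) / (Lp D).eval (uu F β)| ≤
        (B + mainBound F) * c := by
    intro a β ha ha' hβ hβ' hne
    have h1 := h a β (by linarith) (by linarith) hβ hβ' (by
      intro D hD
      rw [L_real' hq g D hD]
      exact_mod_cast hne D hD)
    have h2 := mainTerms_bound hq g a β ha ha' (by linarith) hβ'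
    have h3 : ‖ratioMean F g a β‖ ≤ B + mainBound F := by
      calc ‖ratioMean F g a β‖ = ‖(ratioMean F g a β - mainTerms F g a β) +
            mainTerms F g a β‖ := by ring_nf
        _ ≤ _ := norm_add_le _ _
        _ ≤ B + mainBound F := add_le_add h1 h2
    rw [ratioMean_real hq, Complex.norm_real, Real.norm_eq_abs, abs_div, ← hc,
      abs_of_pos hcpos, div_le_iff₀ hcpos] at h3
    exact h3
  -- no zeros
  have hnz : ∀ β0 : ℝ, b < β0 → β0 < 1 / 4 →
      ∀ D ∈ ensemble F (2 * g + 1), (Lp D).eval (uu F β0) ≠ 0 := by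
    intro β0 h1 h2
    apply no_zero (ensemble F (2 * g + 1)) Lp hLpne (uu F β0)
      (uu F '' Set.Icc (1 / 16) (1 / 8))
    · apply Set.Infinite.image
      · intro x _ y _ hxy
        by_contra hne
        rcases lt_or_gt_of_ne hne with h3 | h3
        · exact absurd hxy (uu_lt (F := F) h3).ne'
        · exact absurd hxy (uu_lt (F := F) h3).ne
      · exact Set.Icc_infinite (by norm_num)
    · rintro _ ⟨a, ha, rfl⟩
      refine ⟨(B + mainBound F) * c, ?_⟩
      have e1 : ∀ᶠ u in 𝓝[≠] (uu F β0), u ∈ Set.Ioo (uu F (1 / 4)) (uu F b) :=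
        nhdsWithin_le_nhds (Ioo_mem_nhds (uu_lt h2) (uu_lt h1))
      have e2 : ∀ᶠ u in 𝓝[≠] (uu F β0), ∀ D ∈ ensemble F (2 * g + 1),
          (Lp D).eval u ≠ 0 := by
        rw [Filter.eventually_all_finset]
        intro D hD
        have h3 : ((Lp D).roots.toFinset : Set ℝ).Finite := Finset.finite_toSet _
        have h4 : ∀ᶠ u in 𝓝[≠] (uu F β0), u ∉ ((Lp D).roots.toFinset : Set ℝ) := by
          have h6 : (((Lp D).roots.toFinset : Set ℝ) \ {uu F β0})ᶜ ∈ 𝓝 (uu F β0) := by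
            apply IsOpen.mem_nhds
            · exact (h3.subset Set.sdiff_subset).isClosed.isOpen_compl
            · simp
          filter_upwards [nhdsWithin_le_nhds h6, self_mem_nhdsWithin] with u hu hu'
          intro hmem
          exact hu ⟨hmem, hu'⟩
        filter_upwards [h4] with u hu
        intro hz
        apply hu
        rw [mem_coe, Multiset.mem_toFinset, mem_roots (hLpne D hD)]
        exact hz
      filter_upwards [e1, e2] with u hu hu2
      obtain ⟨β, rfl⟩ := exists_uu (F := F) u (lt_trans (uu_pos _) hu.1)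
      exact hbound a β ha.1 ha.2 (lt_of_uu_lt hu.2).le (lt_of_uu_lt hu.1) hu2
  -- positivity of all ratios
  have hpos : ∀ D ∈ ensemble F (2 * g + 1),
      0 < (Lp D).eval (uu F (1 / 8)) / (Lp D).eval (uu F (2 * b)) := by
    intro D hD
    apply ratio_pos (Lp D) (uu F (1 / 4)) (uu F b)
    · intro u hu
      obtain ⟨β, rfl⟩ := exists_uu (F := F) u (lt_trans (uu_pos _) hu.1)
      exact hnz β (lt_of_uu_lt hu.2) (lt_of_uu_lt hu.1) D hD
    · exact ⟨uu_lt (by linarith), uu_lt (by linarith)⟩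
    · exact ⟨uu_lt (by norm_num), uu_lt (by linarith)⟩
  have hfin := hbound (1 / 8) (2 * b) (by norm_num) le_rfl (by linarith) (by linarith)
    (fun D hD => hnz (2 * b) (by linarith) (by linarith) D hD)
  have hsingle : (Lp (D0 F (2 ^ j))).eval (uu F (1 / 8)) /
      (Lp (D0 F (2 ^ j))).eval (uu F (2 * b)) ≤
      ∑ D ∈ ensemble F (2 * g + 1), (Lp D).eval (uu F (1 / 8)) / (Lp D).eval (uu F (2 * b)) :=
    Finset.single_le_sum (f := fun D => (Lp D).eval (uu F (1 / 8)) /
      (Lp D).eval (uu F (2 * b))) (fun D hD => (hpos D hD).le) hmem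
  have hBpos : 0 ≤ B + mainBound F := by
    by_contra hcon
    push Not at hcon
    have h1 : (B + mainBound F) * c < 0 := mul_neg_of_neg_of_pos hcon hcpos
    have h2 := abs_nonneg (∑ D ∈ ensemble F (2 * g + 1),
      (Lp D).eval (uu F (1 / 8)) / (Lp D).eval (uu F (2 * b)))
    linarith
  rw [Lp_D0 hq j k hj hk, Lp_D0 hq j k hj hk, ← div_pow] at hsingle
  calc _ ≤ _ := hsingle
    _ ≤ _ := le_abs_self _
    _ ≤ (B + mainBound F) * c := hfin
    _ ≤ _ := mul_le_mul_of_nonneg_left hcle hBpos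

end Pool.Agent.H69.Ratios
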