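import Mathlib

/-!
# Quadratic L-functions over `F_q(x)`: definitions
-/

set_option autoImplicit false
set_option linter.unusedSectionVars false

open Polynomial UniqueFactorizationMonoid
open scoped Classical

namespace Pool.Agent.H69.Ratios

variable {F : Type} [Field F] [Fintype F]

lemma finite_monics (n : ℕ) : {f : F[X] | f.Monic ∧ f.natDegree = n}.Finite := by
  have h : {f : F[X] | f.Monic ∧ f.natDegree = n} ⊆
      Set.range (fun a : Fin (n + 1) → F => ∑ i : Fin (n + 1), C (a i) * X ^ (i : ℕ)) := by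
    rintro f ⟨_, hf⟩
    refine ⟨fun i => f.coeff i, ?_⟩
    simp only
    rw [Fin.sum_univ_eq_sum_range (fun i => C (f.coeff i) * X ^ i) (n + 1), ← hf]
    exact (f.as_sum_range_C_mul_X_pow).symm
  exact (Set.finite_range _).subset h

/-- The monic polynomials of degree `n` over `F`. -/
noncomputable def monics (F : Type) [Field F] [Fintype F] (n : ℕ) : Finset F[X] :=
  (finite_monics (F := F) n).toFinset

@[simp] lemma mem_monics {n : ℕ} {f : F[X]} : f ∈ monics F n ↔ f.Monic ∧ f.natDegree = n := by
  simp [monics]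

/-- The quadratic residue symbol `(D/P)` for `P` irreducible. -/
noncomputable def legendre (D P : F[X]) : ℤ :=
  if P ∣ D then 0 else if ∃ h : F[X], P ∣ D - h ^ 2 then 1 else -1

/-- The Jacobi symbol `χ_D(f) = (D/f)`: the product of the symbols `(D/P)` over the monic
irreducible factors `P` of `f`, with multiplicity. -/
noncomputable def chi (D f : F[X]) : ℤ := ((normalizedFactors f).map (legendre D)).prod

/-- The coefficient `∑ χ_D(f)` over the monic `f` of degree `n`. -/
noncomputable def coef (D : F[X]) (n : ℕ) : ℤ := ∑ f ∈ monics F n, chi D f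

/-- The `L`-function `L(s, χ_D) = ∑_f χ_D(f) |f|^(-s)`, the monic polynomials `f` being grouped by
degree.  (If `D` is monic of odd degree the coefficients `coef D n` vanish for `n ≥ deg D`, see
`coef_eq_zero`, so this is a polynomial in `q^(-s)` and the series makes sense for all `s`.) -/
noncomputable def L (D : F[X]) (s : ℂ) : ℂ :=
  ∑' n : ℕ, (coef D n : ℂ) * (Fintype.card F : ℂ) ^ (-(n : ℂ) * s)

/-- The ensemble `H_n`: monic squarefree polynomials of degree `n`. -/
noncomputable def ensemble (F : Type) [Field F] [Fintype F] (n : ℕ) : Finset F[X] :=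
  (monics F n).filter Squarefree

/-- The mean `R_g(α; β)` of `L(1/2+α, χ_D) / L(1/2+β, χ_D)` over `D ∈ H_{2g+1}`. -/
noncomputable def ratioMean (F : Type) [Field F] [Fintype F] (g : ℕ) (α β : ℂ) : ℂ :=
  (∑ D ∈ ensemble F (2 * g + 1), L D (1 / 2 + α) / L D (1 / 2 + β)) /
    ((ensemble F (2 * g + 1)).card : ℂ)

/-- The zeta function `ζ_q(s) = (1 - q^(1-s))⁻¹`. -/
noncomputable def zetaF (F : Type) [Fintype F] (s : ℂ) : ℂ :=
  (1 - (Fintype.card F : ℂ) ^ (1 - s))⁻¹

/-- The norm `|P| = q^(deg P)`, as a complex number. -/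
noncomputable def nrm (P : F[X]) : ℂ := ((Fintype.card F ^ P.natDegree : ℕ) : ℂ)

/-- The Euler product `A(α; β)` over the monic irreducible polynomials. -/
noncomputable def eulerA (F : Type) [Field F] [Fintype F] (α β : ℂ) : ℂ :=
  ∏' P : {P : F[X] // P.Monic ∧ Irreducible P},
    (1 - nrm P.1 ^ (-1 - 2 * α) * (nrm P.1 + 1)⁻¹ - nrm P.1 ^ (-α - β) * (nrm P.1 + 1)⁻¹) /
      (1 - nrm P.1 ^ (-1 - α - β))

/-- The two main terms of the ratios conjecture. -/
noncomputable def mainTerms (F : Type) [Field F] [Fintype F] (g : ℕ) (α β : ℂ) : ℂ :=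
  eulerA F α β * (zetaF F (1 + 2 * α) / zetaF F (1 + α + β)) +
    (Fintype.card F : ℂ) ^ (-2 * (g : ℂ) * α) * eulerA F (-α) β *
      (zetaF F (1 - 2 * α) / zetaF F (1 - α + β))

/-- The monic irreducible polynomials of degree `n`. -/
noncomputable def irr (F : Type) [Field F] [Fintype F] (n : ℕ) : Finset F[X] :=
  (monics F n).filter Irreducible

@[simp] lemma mem_irr {n : ℕ} {f : F[X]} :
    f ∈ irr F n ↔ f.Monic ∧ f.natDegree = n ∧ Irreducible f := by
  simp [irr, and_assoc]

lemma chi_one (D : F[X]) : chi D (1 : F[X]) = 1 := by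
  simp [chi]

lemma chi_mul (D f g : F[X]) (hf : f ≠ 0) (hg : g ≠ 0) : chi D (f * g) = chi D f * chi D g := by
  simp [chi, normalizedFactors_mul hf hg]

lemma chi_irr (D P : F[X]) (hP : Irreducible P) (hm : P.Monic) : chi D P = legendre D P := by
  simp [chi, normalizedFactors_irreducible hP, hm.normalize_eq_self]

lemma chi_pow (D f : F[X]) (hf : f ≠ 0) (k : ℕ) : chi D (f ^ k) = chi D f ^ k := by
  induction k with
  | zero => simp [chi_one]
  | succ k ih => rw [pow_succ, chi_mul D _ _ (pow_ne_zero _ hf) hf, ih, pow_succ]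

lemma coef_zero (D : F[X]) : coef D 0 = 1 := by
  have h : monics F 0 = {1} := by
    ext f
    simp only [mem_monics, Finset.mem_singleton]
    constructor
    · rintro ⟨h1, h2⟩
      exact h1.natDegree_eq_zero.mp h2
    · rintro rfl
      simp [monic_one]
  simp [coef, h, chi_one]

end Pool.Agent.H69.Ratios
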