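import Pool.Agent.H69.Ratios.Recursion

/-!
# The power sums count points
-/

set_option autoImplicit false
set_option linter.unusedSectionVars false

open Polynomial UniqueFactorizationMonoid Finset
open scoped Classical

namespace Pool.Agent.H69.Ratios

variable {F : Type} [Field F] [Fintype F]

lemma legendre_mem (D P : F[X]) : legendre D P ∈ ({0, 1, -1} : Set ℤ) := by
  unfold legendre
  split_ifs <;> simp

/-- the symbol, computed in the residue field -/
lemma quadraticChar_adjoinRoot (D P : F[X]) [hP : Fact (Irreducible P)]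
    [Fintype (AdjoinRoot P)] :
    quadraticChar (AdjoinRoot P) (AdjoinRoot.mk P D) = legendre D P := by
  unfold legendre
  by_cases h0 : P ∣ D
  · rw [if_pos h0, AdjoinRoot.mk_eq_zero.mpr h0]
    exact quadraticChar_zero
  · rw [if_neg h0]
    have hne : AdjoinRoot.mk P D ≠ 0 := fun h => h0 (AdjoinRoot.mk_eq_zero.mp h)
    have hsq : IsSquare (AdjoinRoot.mk P D) ↔ ∃ h : F[X], P ∣ D - h ^ 2 := by
      constructor
      · rintro ⟨r, hr⟩
        obtain ⟨h, rfl⟩ := AdjoinRoot.mk_surjective r
        refine ⟨h, ?_⟩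
        rw [← AdjoinRoot.mk_eq_zero, map_sub, map_pow, hr]
        ring
      · rintro ⟨h, hh⟩
        rw [← AdjoinRoot.mk_eq_zero, map_sub, map_pow, sub_eq_zero] at hh
        exact ⟨AdjoinRoot.mk P h, by rw [hh]; ring⟩
    split_ifs with h1
    · exact (quadraticChar_one_iff_isSquare hne).mpr (hsq.mpr h1)
    · exact quadraticChar_neg_one_iff_not_isSquare.mpr (fun h => h1 (hsq.mp h))

lemma odd_geom (a t : ℕ) (ha : Odd a) : (∑ i ∈ range t, a ^ i) % 2 = t % 2 := by
  induction t with
  | zero => rfl
  | succ t ih =>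
    rw [Finset.sum_range_succ, Nat.add_mod, ih]
    have : a ^ t % 2 = 1 := Nat.odd_iff.mp (ha.pow)
    rw [this]
    omega

lemma pow_parity (e : ℤ) (he : e ∈ ({0, 1, -1} : Set ℤ)) (s t : ℕ) (hs : 0 < s) (ht : 0 < t)
    (h : s % 2 = t % 2) : e ^ s = e ^ t := by
  simp only [Set.mem_insert_iff, Set.mem_singleton_iff] at he
  rcases he with rfl | rfl | rfl
  · rw [zero_pow hs.ne', zero_pow ht.ne']
  · simp
  · rcases Nat.even_or_odd s with h1 | h1
    · have h2 : Even t := by rw [Nat.even_iff] at h1 ⊢; omega
      rw [h1.neg_one_pow, h2.neg_one_pow]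
    · have h2 : Odd t := by rw [Nat.odd_iff] at h1 ⊢; omega
      rw [h1.neg_one_pow, h2.neg_one_pow]

/-- splitting `q^m / 2` -/
lemma half_pow (Q t : ℕ) (hQ : Odd Q) : Q ^ t / 2 = Q / 2 * ∑ i ∈ range t, Q ^ i := by
  have h1 : (∑ i ∈ range t, Q ^ i) * (Q - 1) = Q ^ t - 1 := by
    have hQ1 : 1 ≤ Q := hQ.pos
    zify [hQ1, Nat.one_le_pow t Q hQ1]
    exact geom_sum_mul (Q : ℤ) t
  obtain ⟨k, hk⟩ := hQ
  have h2 : Q / 2 = k := by omega
  have h3 : Q - 1 = 2 * k := by omega
  have h4 : Odd (Q ^ t) := (show Odd Q from ⟨k, hk⟩).pow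
  obtain ⟨l, hl⟩ := h4
  have h5 : Q ^ t / 2 = l := by omega
  rw [h2, h5]
  rw [h3] at h1
  have h6 : Q ^ t - 1 = 2 * l := by omega
  rw [h6] at h1
  have : 2 * (k * ∑ i ∈ range t, Q ^ i) = 2 * l := by rw [← h1]; ring
  omega

section ext

variable {K : Type} [Field K] [Fintype K] [Algebra F K]

lemma ringChar_ne_two_of_odd (L : Type) [Field L] [Fintype L] (h : Odd (Fintype.card L)) :
    ringChar L ≠ 2 := by
  intro h2
  have := FiniteField.even_card_of_char_two h2
  rw [Nat.odd_iff] at h
  omega

lemma symbol_pow (hq : Odd (Fintype.card F)) (D : F[X]) (x : K) :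
    legendre D (minpoly F x) ^ (Module.finrank F K / (minpoly F x).natDegree) =
      quadraticChar K (aeval x D) := by
  have : FiniteDimensional F K := Module.Finite.of_finite
  have hint : IsIntegral F x := Algebra.IsIntegral.isIntegral x
  have hirr : Irreducible (minpoly F x) := minpoly.irreducible hint
  obtain ⟨P, hPdef⟩ : ∃ P, P = minpoly F x := ⟨_, rfl⟩
  rw [← hPdef] at hirr ⊢
  have : Fact (Irreducible P) := ⟨hirr⟩
  have : Module.Finite F (AdjoinRoot P) := by
    have := (AdjoinRoot.powerBasis hirr.ne_zero).finite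
    exact this
  have : Finite (AdjoinRoot P) := Module.finite_of_finite F
  let : Fintype (AdjoinRoot P) := Fintype.ofFinite _
  have hcard : Fintype.card (AdjoinRoot P) = Fintype.card F ^ P.natDegree := by
    rw [Module.card_eq_pow_finrank (K := F) (V := AdjoinRoot P)]
    congr 1
    exact finrank_quotient_span_eq_natDegree
  have hdvd : P.natDegree ∣ Module.finrank F K := by
    rw [hPdef]
    exact minpoly.degree_dvd hint
  obtain ⟨t, ht⟩ := hdvd
  have hdpos : 0 < P.natDegree := hirr.natDegree_pos
  have hmpos : 0 < Module.finrank F K := Module.finrank_pos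
  have htpos : 0 < t := by
    rcases Nat.eq_zero_or_pos t with h | h
    · subst h; omega
    · exact h
  have hdiv : Module.finrank F K / P.natDegree = t := by
    rw [ht]; exact Nat.mul_div_cancel_left _ hdpos
  have hKcard : Fintype.card K = (Fintype.card F ^ P.natDegree) ^ t := by
    rw [Module.card_eq_pow_finrank (K := F) (V := K), ht, pow_mul]
  have hQodd : Odd (Fintype.card F ^ P.natDegree) := hq.pow
  have hK2 : ringChar K ≠ 2 := ringChar_ne_two_of_odd K (by rw [hKcard]; exact hQodd.pow)
  have hL2 : ringChar (AdjoinRoot P) ≠ 2 :=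
    ringChar_ne_two_of_odd _ (by rw [hcard]; exact hQodd)
  have hroot : aeval x P = 0 := by rw [hPdef]; exact minpoly.aeval F x
  let φ : AdjoinRoot P →ₐ[F] K := AdjoinRoot.liftAlgHom P (Algebra.ofId F K) x (by
    simpa [Polynomial.aeval_def] using hroot)
  have hφ : φ (AdjoinRoot.mk P D) = aeval x D := by
    simp [φ, AdjoinRoot.liftAlgHom_mk, Polynomial.aeval_def]
  have h1 : ((legendre D P : ℤ) : K) = (aeval x D) ^ (Fintype.card F ^ P.natDegree / 2) := by
    rw [← quadraticChar_adjoinRoot D P]
    have := quadraticChar_eq_pow_of_char_ne_two' hL2 (AdjoinRoot.mk P D)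
    have h2 := congrArg φ this
    rw [map_pow, hφ, hcard, map_intCast] at h2
    exact h2
  rw [hdiv]
  apply Int.cast_injOn_of_ringChar_ne_two hK2
  · have := legendre_mem D P
    simp only [Set.mem_insert_iff, Set.mem_singleton_iff] at this ⊢
    rcases this with h | h | h
    · left; rw [h, zero_pow htpos.ne']
    · right; left; rw [h, one_pow]
    · rw [h]
      rcases Nat.even_or_odd t with h5 | h5
      · right; left; exact h5.neg_one_pow
      · right; right; exact h5.neg_one_pow
  · by_cases h0 : aeval x D = 0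
    · rw [h0]; simp
    · rcases quadraticChar_dichotomy h0 with h | h <;> simp [h]
  · rw [quadraticChar_eq_pow_of_char_ne_two' hK2, hKcard, half_pow _ t hQodd, pow_mul, ← h1]
    rw [← Int.cast_pow, pow_parity _ (legendre_mem D P) t (∑ i ∈ range t,
      (Fintype.card F ^ P.natDegree) ^ i) htpos ?_ (odd_geom _ t hQodd).symm]
    exact Finset.sum_pos (fun i _ => pow_pos hQodd.pos i) ⟨0, by simpa using htpos⟩

lemma card_fiber (P : F[X]) (hPm : P.Monic) (hPi : Irreducible P)
    (hd : P.natDegree ∣ Module.finrank F K) :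
    (univ.filter (fun x : K => minpoly F x = P)).card = P.natDegree := by
  have : FiniteDimensional F K := Module.Finite.of_finite
  have hsplit : Splits (P.map (algebraMap F K)) := by
    have h1 : P ∣ X ^ (Nat.card F) ^ (Module.finrank F K) - X :=
      hPi.natDegree_dvd_iff_dvd_X_pow_card_pow_sub_X.mp hd
    have h2 : Nat.card F ^ (Module.finrank F K) = Fintype.card K := by
      rw [Nat.card_eq_fintype_card, ← Module.card_eq_pow_finrank]
    rw [h2] at h1
    have h3 := (FiniteField.isSplittingField_sub K F).splits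
    refine Splits.of_dvd h3 ?_ (Polynomial.map_dvd _ h1)
    apply Polynomial.map_ne_zero
    exact FiniteField.X_pow_card_sub_X_ne_zero F Fintype.one_lt_card
  have hsep : P.Separable := PerfectField.separable_of_irreducible hPi
  rw [← card_rootSet_eq_natDegree hsep hsplit, ← Set.toFinset_card]
  congr 1
  ext x
  simp only [mem_filter, mem_univ, true_and, Set.mem_toFinset]
  rw [mem_rootSet]
  constructor
  · rintro rfl
    exact ⟨hPi.ne_zero, minpoly.aeval F x⟩
  · rintro ⟨_, h⟩
    exact (minpoly.eq_of_irreducible_of_monic hPi h hPm).symm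

/-- **The power sums count points.** -/
lemma psum_eq_points (hq : Odd (Fintype.card F)) (D : F[X]) :
    psum D (Module.finrank F K) = ∑ x : K, quadraticChar K (aeval x D) := by
  have : FiniteDimensional F K := Module.Finite.of_finite
  set m := Module.finrank F K with hm
  have hmaps : ∀ x ∈ (univ : Finset K),
      minpoly F x ∈ (irrLe F m).filter (fun P => P.natDegree ∣ m) := by
    intro x _
    have hint : IsIntegral F x := Algebra.IsIntegral.isIntegral x
    have hd : (minpoly F x).natDegree ∣ m := minpoly.degree_dvd hint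
    rw [mem_filter, mem_irrLe]
    exact ⟨⟨minpoly.monic hint, minpoly.irreducible hint,
      Nat.le_of_dvd Module.finrank_pos hd⟩, hd⟩
  rw [← Finset.sum_fiberwise_of_maps_to hmaps, psum]
  refine Finset.sum_congr rfl fun P hP => ?_
  rw [mem_filter, mem_irrLe] at hP
  have h1 : ∀ x ∈ (univ : Finset K).filter (fun x => minpoly F x = P),
      quadraticChar K (aeval x D) = legendre D P ^ (m / P.natDegree) := by
    intro x hx
    rw [mem_filter] at hx
    rw [← symbol_pow hq D x, hx.2]
  rw [Finset.sum_congr rfl h1, Finset.sum_const, nsmul_eq_mul,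
    card_fiber P hP.1.1 hP.1.2.1 hP.2]

end ext

end Pool.Agent.H69.Ratios
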