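import Pool.Agent.H69.Ratios.Defs

/-!
# The recursion `n c_n = ∑ S_m c_{n-m}`
-/

set_option autoImplicit false
set_option linter.unusedSectionVars false

open Polynomial UniqueFactorizationMonoid Finset
open scoped Classical

namespace Pool.Agent.H69.Ratios

variable {F : Type} [Field F] [Fintype F]

/-- monic irreducible polynomials of degree at most `n` -/
noncomputable def irrLe (F : Type) [Field F] [Fintype F] (n : ℕ) : Finset F[X] :=
  (range (n + 1)).biUnion (irr F)

@[simp] lemma mem_irrLe {n : ℕ} {P : F[X]} :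
    P ∈ irrLe F n ↔ P.Monic ∧ Irreducible P ∧ P.natDegree ≤ n := by
  simp only [irrLe, mem_biUnion, mem_range, mem_irr]
  constructor
  · rintro ⟨d, hd, h1, rfl, h2⟩
    exact ⟨h1, h2, by omega⟩
  · rintro ⟨h1, h2, h3⟩
    exact ⟨_, by omega, h1, rfl, h2⟩

/-- the power sums -/
noncomputable def psum (D : F[X]) (m : ℕ) : ℤ :=
  ∑ P ∈ (irrLe F m).filter (fun P => P.natDegree ∣ m),
    (P.natDegree : ℤ) * legendre D P ^ (m / P.natDegree)

lemma monic_of_mem_nf {f P : F[X]} (h : P ∈ normalizedFactors f) : P.Monic := by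
  have h1 := normalize_normalized_factor P h
  have h2 : P ≠ 0 := by
    rintro rfl
    exact absurd (irreducible_of_normalized_factor _ h) not_irreducible_zero
  rw [← h1]
  exact monic_normalize h2

lemma natDegree_eq_sum (n : ℕ) (f : F[X]) (hf : f ∈ monics F n) :
    (n : ℤ) = ∑ P ∈ irrLe F n, (P.natDegree : ℤ) * ((normalizedFactors f).count P : ℤ) := by
  rw [mem_monics] at hf
  obtain ⟨hm, hn⟩ := hf
  have hf0 : f ≠ 0 := hm.ne_zero
  have h1 : (normalizedFactors f).prod = f := by
    have h := prod_normalizedFactors_eq hf0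
    rw [h, hm.normalize_eq_self]
  have h2 : n = ((normalizedFactors f).map natDegree).sum := by
    rw [← hn]
    conv_lhs => rw [← h1]
    exact natDegree_multiset_prod_of_monic _ (fun P hP => monic_of_mem_nf hP)
  have h3 : (n : ℤ) = ∑ P ∈ (normalizedFactors f).toFinset,
      (P.natDegree : ℤ) * ((normalizedFactors f).count P : ℤ) := by
    rw [h2, Finset.sum_multiset_map_count]
    push_cast
    refine Finset.sum_congr rfl fun P _ => ?_
    simp [mul_comm]
  rw [h3]
  apply Finset.sum_subset
  · intro P hP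
    rw [Multiset.mem_toFinset] at hP
    rw [mem_irrLe]
    refine ⟨monic_of_mem_nf hP, irreducible_of_normalized_factor _ hP, ?_⟩
    rw [← hn]
    exact natDegree_le_of_dvd (dvd_of_mem_normalizedFactors hP) hf0
  · intro P _ hP
    rw [Multiset.mem_toFinset] at hP
    rw [Multiset.count_eq_zero_of_notMem hP]
    simp

lemma count_eq_card (n : ℕ) (f : F[X]) (hf : f ∈ monics F n) (P : F[X]) (hP : P ∈ irrLe F n) :
    ((normalizedFactors f).count P : ℤ) = ∑ k ∈ Icc 1 n, if P ^ k ∣ f then (1 : ℤ) else 0 := by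
  rw [mem_monics] at hf
  rw [mem_irrLe] at hP
  obtain ⟨hm, hn⟩ := hf
  obtain ⟨hPm, hPi, _⟩ := hP
  have hf0 : f ≠ 0 := hm.ne_zero
  have key : ∀ k, P ^ k ∣ f ↔ k ≤ (normalizedFactors f).count P := by
    intro k
    rw [dvd_iff_normalizedFactors_le_normalizedFactors (pow_ne_zero _ hPm.ne_zero) hf0,
      normalizedFactors_pow, normalizedFactors_irreducible hPi, hPm.normalize_eq_self,
      Multiset.nsmul_singleton, Multiset.le_count_iff_replicate_le]
  have hle : (normalizedFactors f).count P ≤ n := by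
    have h1 := (key ((normalizedFactors f).count P)).mpr le_rfl
    have h2 := natDegree_le_of_dvd h1 hf0
    rw [natDegree_pow, hn] at h2
    have h3 : 1 ≤ P.natDegree := hPi.natDegree_pos
    nlinarith
  simp only [key]
  rw [← Finset.sum_filter, Finset.sum_const, nsmul_eq_mul, mul_one]
  have h4 : (Icc 1 n).filter (fun k => k ≤ (normalizedFactors f).count P) =
      Icc 1 ((normalizedFactors f).count P) := by
    ext k
    simp only [mem_filter, mem_Icc]
    omega
  rw [h4]
  simp

lemma sum_dvd (D : F[X]) (n k : ℕ) (P : F[X]) (hPm : P.Monic) (hPi : Irreducible P) :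
    ∑ f ∈ monics F n, (if P ^ k ∣ f then chi D f else 0) =
      if k * P.natDegree ≤ n then legendre D P ^ k * coef D (n - k * P.natDegree) else 0 := by
  have hPk : (P ^ k).Monic := hPm.pow k
  split_ifs with h
  · rw [← Finset.sum_filter, coef, Finset.mul_sum]
    symm
    refine Finset.sum_bij (fun g _ => P ^ k * g) ?_ ?_ ?_ ?_
    · intro g hg
      rw [mem_monics] at hg
      rw [mem_filter, mem_monics]
      refine ⟨⟨hPk.mul hg.1, ?_⟩, dvd_mul_right _ _⟩
      rw [hPk.natDegree_mul hg.1, hg.2, natDegree_pow]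
      omega
    · intro g _ g' _ hgg
      exact mul_left_cancel₀ hPk.ne_zero hgg
    · intro f hf
      rw [mem_filter, mem_monics] at hf
      obtain ⟨⟨hfm, hfn⟩, g, rfl⟩ := hf
      have hg : g.Monic := hPk.of_mul_monic_left hfm
      refine ⟨g, ?_, rfl⟩
      rw [mem_monics]
      refine ⟨hg, ?_⟩
      rw [hPk.natDegree_mul hg, natDegree_pow] at hfn
      omega
    · intro g hg
      rw [mem_monics] at hg
      rw [chi_mul D _ _ hPk.ne_zero hg.1.ne_zero, chi_pow D P hPm.ne_zero, chi_irr D P hPi hPm]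
  · apply Finset.sum_eq_zero
    intro f hf
    rw [mem_monics] at hf
    rw [if_neg]
    intro hd
    have := natDegree_le_of_dvd hd hf.1.ne_zero
    rw [natDegree_pow, hf.2] at this
    exact h this

lemma psum_eq (D : F[X]) (n m : ℕ) (h1 : 1 ≤ m) (hm : m ≤ n) :
    psum D m = ∑ P ∈ irrLe F n, ∑ k ∈ Icc 1 n,
      if k * P.natDegree = m then (P.natDegree : ℤ) * legendre D P ^ k else 0 := by
  rw [psum]
  have hsub : (irrLe F m).filter (fun P => P.natDegree ∣ m) ⊆ irrLe F n := by
    intro P hP
    rw [mem_filter, mem_irrLe] at hP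
    rw [mem_irrLe]
    exact ⟨hP.1.1, hP.1.2.1, hP.1.2.2.trans hm⟩
  rw [← Finset.sum_subset hsub (f := fun P => ∑ k ∈ Icc 1 n,
      if k * P.natDegree = m then (P.natDegree : ℤ) * legendre D P ^ k else 0)]
  · refine Finset.sum_congr rfl fun P hP => ?_
    rw [mem_filter, mem_irrLe] at hP
    obtain ⟨⟨_, hPi, hPd⟩, k, hk⟩ := hP
    have hpos : 0 < P.natDegree := hPi.natDegree_pos
    have hk' : m / P.natDegree = k := by
      rw [hk]; exact Nat.mul_div_cancel_left _ hpos
    rw [hk', Finset.sum_eq_single k]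
    · rw [if_pos (by rw [hk]; ring)]
    · intro b _ hb
      rw [if_neg]
      intro h
      apply hb
      rw [hk, mul_comm] at h
      exact Nat.eq_of_mul_eq_mul_left hpos h
    · intro hkn
      exfalso
      apply hkn
      rw [mem_Icc]
      constructor
      · rcases Nat.eq_zero_or_pos k with h | h
        · subst h; omega
        · exact h
      · calc k ≤ P.natDegree * k := Nat.le_mul_of_pos_left _ hpos
          _ ≤ n := by omega
  · intro P hP hPn
    rw [mem_irrLe] at hP
    apply Finset.sum_eq_zero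
    intro k hk
    rw [if_neg]
    intro h
    apply hPn
    rw [mem_filter, mem_irrLe]
    refine ⟨⟨hP.1, hP.2.1, ?_⟩, ⟨k, by rw [← h]; ring⟩⟩
    rw [mem_Icc] at hk
    rw [← h]
    exact Nat.le_mul_of_pos_left _ (by omega)

/-- **The recursion** for the coefficients of the `L`-function. -/
lemma recursion (D : F[X]) (n : ℕ) :
    (n : ℤ) * coef D n = ∑ m ∈ Icc 1 n, psum D m * coef D (n - m) := by
  have e1 : (n : ℤ) * coef D n = ∑ P ∈ irrLe F n, ∑ k ∈ Icc 1 n, (P.natDegree : ℤ) *
      ∑ f ∈ monics F n, (if P ^ k ∣ f then chi D f else 0) := by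
    have e2 : (n : ℤ) * coef D n = ∑ f ∈ monics F n, ∑ P ∈ irrLe F n, ∑ k ∈ Icc 1 n,
        (P.natDegree : ℤ) * (if P ^ k ∣ f then chi D f else 0) := by
      rw [coef, Finset.mul_sum]
      refine Finset.sum_congr rfl fun f hf => ?_
      conv_lhs => rw [natDegree_eq_sum n f hf]
      rw [Finset.sum_mul]
      refine Finset.sum_congr rfl fun P hP => ?_
      rw [count_eq_card n f hf P hP, Finset.mul_sum, Finset.sum_mul]
      refine Finset.sum_congr rfl fun k _ => ?_
      split_ifs <;> ring
    rw [e2, Finset.sum_comm]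
    refine Finset.sum_congr rfl fun P _ => ?_
    rw [Finset.sum_comm]
    refine Finset.sum_congr rfl fun k _ => ?_
    rw [Finset.mul_sum]
  rw [e1]
  have e3 : ∑ m ∈ Icc 1 n, psum D m * coef D (n - m) = ∑ P ∈ irrLe F n, ∑ k ∈ Icc 1 n,
      ∑ m ∈ Icc 1 n, (if k * P.natDegree = m then
        (P.natDegree : ℤ) * legendre D P ^ k * coef D (n - m) else 0) := by
    have e4 : ∑ m ∈ Icc 1 n, psum D m * coef D (n - m) = ∑ m ∈ Icc 1 n, ∑ P ∈ irrLe F n,
        ∑ k ∈ Icc 1 n, (if k * P.natDegree = m then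
        (P.natDegree : ℤ) * legendre D P ^ k * coef D (n - m) else 0) := by
      refine Finset.sum_congr rfl fun m hm => ?_
      rw [mem_Icc] at hm
      rw [psum_eq D n m hm.1 hm.2, Finset.sum_mul]
      refine Finset.sum_congr rfl fun P _ => ?_
      rw [Finset.sum_mul]
      refine Finset.sum_congr rfl fun k _ => ?_
      split_ifs <;> ring
    rw [e4, Finset.sum_comm]
    refine Finset.sum_congr rfl fun P _ => ?_
    rw [Finset.sum_comm]
  rw [e3]
  refine Finset.sum_congr rfl fun P hP => ?_
  rw [mem_irrLe] at hP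
  refine Finset.sum_congr rfl fun k hk => ?_
  rw [mem_Icc] at hk
  rw [sum_dvd D n k P hP.1 hP.2.1]
  have hpos : 0 < P.natDegree := hP.2.1.natDegree_pos
  split_ifs with h
  · rw [Finset.sum_eq_single (k * P.natDegree)]
    · rw [if_pos rfl]; ring
    · intro b _ hb
      rw [if_neg (Ne.symm hb)]
    · intro hn
      exfalso
      apply hn
      rw [mem_Icc]
      exact ⟨Nat.mul_pos (by omega) hpos, h⟩
  · rw [mul_zero]
    symm
    apply Finset.sum_eq_zero
    intro m hm
    rw [mem_Icc] at hm
    rw [if_neg]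
    omega

end Pool.Agent.H69.Ratios
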