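import Mathlib

/-!
# The character sum `∑ χ(x^Q - x)` over the field with `Q^(2h)` elements
-/

set_option autoImplicit false
set_option linter.unusedSectionVars false

open Polynomial Finset
open scoped Classical

namespace Pool.Agent.H69.Ratios

lemma fibers_full {α β : Type*} [Fintype α] (f : α → β) (T : Finset β) (hf : ∀ a, f a ∈ T)
    (s t : ℕ) (hs : ∀ b ∈ T, (univ.filter (fun a => f a = b)).card ≤ s) (hT : T.card ≤ t)
    (hc : Fintype.card α = s * t) (hspos : 0 < s) :
    (∀ b ∈ T, (univ.filter (fun a => f a = b)).card = s) ∧ T.card = t := by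
  have h1 : Fintype.card α = ∑ b ∈ T, (univ.filter (fun a => f a = b)).card := by
    rw [← Finset.card_univ]
    exact Finset.card_eq_sum_card_fiberwise (fun a _ => hf a)
  have h2 : ∑ b ∈ T, (univ.filter (fun a => f a = b)).card ≤ ∑ b ∈ T, s :=
    Finset.sum_le_sum hs
  have h3 : ∑ b ∈ T, s = T.card * s := by rw [Finset.sum_const, smul_eq_mul]
  have h4 : s * t ≤ T.card * s := by rw [← hc, h1, ← h3]; exact h2
  have h5 : t ≤ T.card := by
    by_contra hcon
    push Not at hcon
    have : T.card * s < t * s := Nat.mul_lt_mul_of_pos_right hcon hspos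
    linarith [mul_comm s t]
  have h6 : T.card = t := le_antisymm hT h5
  refine ⟨?_, h6⟩
  have h7 : ∑ b ∈ T, (univ.filter (fun a => f a = b)).card = ∑ b ∈ T, s := by
    rw [← h1, h3, h6, hc, mul_comm]
  intro b hb
  exact (Finset.sum_eq_sum_iff_of_le hs).mp h7 b hb

section

variable {K : Type} [Field K] [Fintype K]

lemma card_roots_le (P : K[X]) (hP : P ≠ 0) (S : Finset K) (hS : ∀ x ∈ S, P.eval x = 0) :
    S.card ≤ P.natDegree := by
  have h1 : S ⊆ P.roots.toFinset := by
    intro x hx
    rw [Multiset.mem_toFinset, mem_roots hP]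
    exact hS x hx
  calc S.card ≤ P.roots.toFinset.card := Finset.card_le_card h1
    _ ≤ P.roots.card := Multiset.toFinset_card_le _
    _ ≤ P.natDegree := card_roots' P

lemma card_pow_eq_le (n : ℕ) (hn : 0 < n) (w : K) :
    (univ.filter (fun y : K => y ^ n = w)).card ≤ n := by
  have h := card_roots_le (X ^ n - C w) (X_pow_sub_C_ne_zero hn w)
    (univ.filter (fun y : K => y ^ n = w)) (by
      intro x hx
      rw [mem_filter] at hx
      simp [hx.2])
  rwa [natDegree_X_pow_sub_C] at h

lemma card_units_le (n : ℕ) (hn : 0 < n) (w : K) :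
    (univ.filter (fun y : Kˣ => (y : K) ^ n = w)).card ≤ n := by
  refine le_trans ?_ (card_pow_eq_le n hn w)
  apply Finset.card_le_card_of_injOn (fun y : Kˣ => (y : K))
  · intro y hy
    simp only [coe_filter, mem_univ, true_and, Set.mem_ofPred_eq] at hy ⊢
    exact hy
  · intro y _ z _ h
    exact Units.ext h

/-- power map on the multiplicative group -/
lemma pow_fibers (s t : ℕ) (hs : 0 < s) (ht : 0 < t) (hK : Fintype.card K = s * t + 1) :
    (∀ w : K, w ^ t = 1 → (univ.filter (fun y : Kˣ => (y : K) ^ s = w)).card = s) ∧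
      (univ.filter (fun w : K => w ^ t = 1)).card = t := by
  have h := fibers_full (fun y : Kˣ => (y : K) ^ s) (univ.filter (fun w : K => w ^ t = 1))
    (by
      intro y
      rw [mem_filter]
      refine ⟨mem_univ _, ?_⟩
      rw [← pow_mul]
      have h1 : (y : K) ≠ 0 := y.ne_zero
      have h2 := FiniteField.pow_card_sub_one_eq_one (y : K) h1
      rw [hK] at h2
      simpa using h2) s t
    (fun w _ => card_units_le s hs w) (card_pow_eq_le t ht 1)
    (by
      rw [Fintype.card_units, hK]
      simp) hs
  refine ⟨fun w hw => h.1 w ?_, h.2⟩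
  rw [mem_filter]
  exact ⟨mem_univ _, hw⟩

lemma card_fixed (Q t : ℕ) (hQ : 1 < Q) (ht : 0 < t) (hK : Fintype.card K = (Q - 1) * t + 1) :
    (univ.filter (fun x : K => x ^ Q = x)).card = Q := by
  have h := (pow_fibers (K := K) (Q - 1) t (by omega) ht hK).1 1 (one_pow _)
  have h1 : (univ.filter (fun x : K => x ^ Q = x)) =
      insert 0 (Finset.image (fun y : Kˣ => (y : K))
        (univ.filter (fun y : Kˣ => (y : K) ^ (Q - 1) = 1))) := by
    ext x
    simp only [mem_filter, mem_univ, true_and, mem_insert, mem_image]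
    constructor
    · intro hx
      by_cases h0 : x = 0
      · left; exact h0
      · right
        refine ⟨Units.mk0 x h0, ?_, rfl⟩
        simp only [Units.val_mk0]
        have h2 : x ^ (Q - 1) * x = 1 * x := by
          rw [← pow_succ, Nat.sub_add_cancel (by omega), hx, one_mul]
        exact mul_right_cancel₀ h0 h2
    · rintro (rfl | ⟨y, hy, rfl⟩)
      · exact zero_pow (by omega)
      · rw [← Nat.sub_add_cancel (show 1 ≤ Q by omega), pow_succ, hy, one_mul]
  rw [h1, card_insert_of_notMem, card_image_of_injective, h]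
  · omega
  · exact Units.val_injective
  · simp only [mem_image, mem_filter, not_exists, not_and]
    intro y _
    exact y.ne_zero

/-- an additive map has large kernel if it has small image -/
lemma card_ker_ge (φ : K → K) (hφ : ∀ x y, φ (x - y) = φ x - φ y) (T : Finset K)
    (hT : ∀ x, φ x ∈ T) :
    Fintype.card K ≤ (univ.filter (fun x => φ x = 0)).card * T.card := by
  have h0 : ∀ a ∈ univ.image φ, (univ.filter (fun x => φ x = a)).card ≤
      (univ.filter (fun x => φ x = 0)).card := by
    intro a ha
    rw [mem_image] at ha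
    obtain ⟨x0, _, rfl⟩ := ha
    apply Finset.card_le_card_of_injOn (fun x => x - x0)
    · intro x hx
      simp only [coe_filter, mem_univ, true_and, Set.mem_ofPred_eq] at hx ⊢
      rw [hφ, hx, sub_self]
    · intro x _ y _ h
      simpa using h
  have h1 := Finset.card_le_mul_card_image (s := (univ : Finset K)) (f := φ) _ h0
  rw [Finset.card_univ] at h1
  refine h1.trans (Nat.mul_le_mul_left _ (Finset.card_le_card ?_))
  intro a ha
  rw [mem_image] at ha
  obtain ⟨x0, _, rfl⟩ := ha
  exact hT x0

lemma pow_fibers' (s t : ℕ) (hs : 0 < s) (ht : 0 < t) (hK : Fintype.card K = s * t + 1)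
    (w : K) (hw : w ^ t = 1) : (univ.filter (fun y : K => y ^ s = w)).card = s := by
  refine Eq.trans ?_ ((pow_fibers s t hs ht hK).1 w hw)
  symm
  have hw0 : w ≠ 0 := by
    rintro rfl
    rw [zero_pow ht.ne'] at hw
    exact zero_ne_one hw
  apply Finset.card_bij (fun (y : Kˣ) _ => (y : K))
  · intro y hy
    rw [mem_filter] at hy ⊢
    exact ⟨mem_univ _, hy.2⟩
  · intro y _ z _ h
    exact Units.ext h
  · intro y hy
    rw [mem_filter] at hy
    have hy0 : y ≠ 0 := by
      rintro rfl
      rw [zero_pow hs.ne'] at hy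
      exact hw0 hy.2.symm
    refine ⟨Units.mk0 y hy0, ?_, rfl⟩
    rw [mem_filter]
    exact ⟨mem_univ _, hy.2⟩

/-- sign character on the norm-one group -/
noncomputable def eps (r : ℕ) (w : K) : ℤ := if w ^ ((r + 1) / 2) = 1 then 1 else -1

lemma chi_eq_eps (r : ℕ) (hK : Fintype.card K = r ^ 2) (h4 : r % 4 = 1) (y : K)
    (hy : y ≠ 0) : quadraticChar K y = eps r (y ^ (r - 1)) := by
  have h2 : ringChar K ≠ 2 := by
    intro h
    have := FiniteField.even_card_of_char_two h
    rw [hK, Nat.pow_mod] at this
    have h5 : r % 2 = 1 := by omega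
    rw [h5] at this
    norm_num at this
  have h3 : Fintype.card K / 2 = (r - 1) * ((r + 1) / 2) := by
    rw [hK]
    obtain ⟨k, hk⟩ : ∃ k, r = 4 * k + 1 := ⟨r / 4, by omega⟩
    subst hk
    have e1 : 4 * k + 1 - 1 = 4 * k := by omega
    have e2 : (4 * k + 1 + 1) / 2 = 2 * k + 1 := by omega
    rw [e1, e2]
    have e3 : (4 * k + 1) ^ 2 = 2 * (4 * k * (2 * k + 1)) + 1 := by ring
    rw [e3]
    omega
  have h5 := quadraticChar_eq_pow_of_char_ne_two' h2 y
  rw [h3, pow_mul] at h5
  unfold eps
  rcases quadraticChar_dichotomy hy with h | h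
  · rw [h] at h5 ⊢
    rw [if_pos]
    rw [← h5]
    simp
  · rw [h] at h5 ⊢
    rw [if_neg]
    rw [← h5]
    push_cast
    exact Ring.neg_one_ne_one_of_char_ne_two h2

lemma sum_eps (r : ℕ) (hK : Fintype.card K = r ^ 2) (h4 : r % 4 = 1) (hr : 1 < r) :
    ∑ w ∈ univ.filter (fun w : K => w ^ (r + 1) = 1), eps r w = 0 := by
  have h2 : ringChar K ≠ 2 := by
    intro h
    have := FiniteField.even_card_of_char_two h
    rw [hK, Nat.pow_mod] at this
    have h5 : r % 2 = 1 := by omega
    rw [h5] at this
    norm_num at this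
  have hK' : Fintype.card K = (r - 1) * (r + 1) + 1 := by
    rw [hK]
    obtain ⟨k, rfl⟩ : ∃ k, r = k + 1 := ⟨r - 1, by omega⟩
    simp only [Nat.add_sub_cancel]
    ring
  have h0 := quadraticChar_sum_zero (F := K) h2
  have h1 : ∑ y : K, quadraticChar K y = ∑ y ∈ univ.filter (fun y : K => y ≠ 0),
      quadraticChar K y := by
    rw [Finset.sum_filter]
    refine Finset.sum_congr rfl fun y _ => ?_
    split_ifs with h
    · rfl
    · push Not at h
      rw [h, quadraticChar_zero]
  have h3 : ∑ y ∈ univ.filter (fun y : K => y ≠ 0), quadraticChar K y =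
      ∑ w ∈ univ.filter (fun w : K => w ^ (r + 1) = 1),
        ∑ y ∈ (univ.filter (fun y : K => y ≠ 0)).filter (fun y => y ^ (r - 1) = w),
          quadraticChar K y := by
    symm
    apply Finset.sum_fiberwise_of_maps_to
    intro y hy
    rw [mem_filter] at hy ⊢
    refine ⟨mem_univ _, ?_⟩
    rw [← pow_mul]
    have h4 := FiniteField.pow_card_sub_one_eq_one y hy.2
    rw [hK'] at h4
    simpa using h4
  have h5 : ∀ w ∈ univ.filter (fun w : K => w ^ (r + 1) = 1),
      ∑ y ∈ (univ.filter (fun y : K => y ≠ 0)).filter (fun y => y ^ (r - 1) = w),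
          quadraticChar K y = ((r - 1 : ℕ) : ℤ) * eps r w := by
    intro w hw
    rw [mem_filter] at hw
    have hw0 : w ≠ 0 := by
      rintro rfl
      rw [zero_pow (by omega)] at hw
      exact zero_ne_one hw.2
    have h6 : (univ.filter (fun y : K => y ≠ 0)).filter (fun y => y ^ (r - 1) = w) =
        univ.filter (fun y : K => y ^ (r - 1) = w) := by
      ext y
      simp only [mem_filter, mem_univ, true_and, and_iff_right_iff_imp]
      rintro h rfl
      rw [zero_pow (by omega)] at h
      exact hw0 h.symm
    rw [h6]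
    have h7 : ∀ y ∈ univ.filter (fun y : K => y ^ (r - 1) = w),
        quadraticChar K y = eps r w := by
      intro y hy
      rw [mem_filter] at hy
      have hy0 : y ≠ 0 := by
        rintro rfl
        rw [zero_pow (by omega)] at hy
        exact hw0 hy.2.symm
      rw [chi_eq_eps r hK h4 y hy0, hy.2]
    rw [Finset.sum_congr rfl h7, Finset.sum_const,
      pow_fibers' (r - 1) (r + 1) (by omega) (by omega) hK' w hw.2, nsmul_eq_mul]
  rw [h1, h3, Finset.sum_congr rfl h5, ← Finset.mul_sum] at h0
  rcases mul_eq_zero.mp h0 with h | h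
  · exfalso
    have : r - 1 = 0 := by exact_mod_cast h
    omega
  · exact h

/-- `χ(z)` as a sum over the norm-one group -/
lemma chi_expand (r : ℕ) (hK : Fintype.card K = r ^ 2) (h4 : r % 4 = 1) (hr : 1 < r) (z : K) :
    quadraticChar K z = ∑ w ∈ univ.filter (fun w : K => w ^ (r + 1) = 1),
      if z ^ r = w * z then eps r w else 0 := by
  by_cases hz : z = 0
  · subst hz
    rw [quadraticChar_zero]
    rw [← sum_eps (K := K) r hK h4 hr]
    refine Finset.sum_congr rfl fun w _ => ?_
    rw [if_pos]
    rw [zero_pow (by omega), mul_zero]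
  · rw [chi_eq_eps r hK h4 z hz]
    rw [Finset.sum_eq_single (z ^ (r - 1))]
    · rw [if_pos]
      rw [← pow_succ, Nat.sub_add_cancel hr.le]
    · intro w _ hw
      rw [if_neg]
      intro h
      apply hw
      have h1 : z ^ (r - 1) * z = w * z := by
        rw [← pow_succ, Nat.sub_add_cancel hr.le, h]
      exact (mul_right_cancel₀ hz h1).symm
    · intro h
      exfalso
      apply h
      rw [mem_filter]
      refine ⟨mem_univ _, ?_⟩
      rw [← pow_mul]
      have h4 := FiniteField.pow_card_sub_one_eq_one z hz
      have h5 : Fintype.card K - 1 = (r - 1) * (r + 1) := by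
        rw [hK]
        obtain ⟨k, rfl⟩ : ∃ k, r = k + 1 := ⟨r - 1, by omega⟩
        simp only [Nat.add_sub_cancel]
        have : (k + 1) ^ 2 = k * (k + 1 + 1) + 1 := by ring
        omega
      rwa [h5] at h4

variable (p : ℕ) [Fact p.Prime] [CharP K p]

include p in
/-- **The special character sum.** -/
lemma special_sum (a h Q r : ℕ) (ha : 0 < a) (hh : 0 < h) (hQ : Q = p ^ a) (hr : r = Q ^ h)
    (hK : Fintype.card K = r ^ 2) (h4 : r % 4 = 1) :
    ∑ x : K, quadraticChar K (x ^ Q - x) = -(((Q : ℤ) - 1) * r) := by
  have hp : 1 < p := (Fact.out : p.Prime).one_lt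
  have hQ1 : 1 < Q := by rw [hQ]; exact Nat.one_lt_pow ha.ne' hp
  have hr1 : 1 < r := by rw [hr]; exact Nat.one_lt_pow hh.ne' hQ1
  have hrp : r = p ^ (a * h) := by rw [hr, hQ, pow_mul]
  have subQ : ∀ x y : K, (x - y) ^ Q = x ^ Q - y ^ Q := by
    intro x y; rw [hQ]; exact sub_pow_char_pow x y _
  have addQ : ∀ x y : K, (x + y) ^ Q = x ^ Q + y ^ Q := by
    intro x y; rw [hQ]; exact add_pow_char_pow x y p _
  have subr : ∀ x y : K, (x - y) ^ r = x ^ r - y ^ r := by
    intro x y; rw [hrp]; exact sub_pow_char_pow x y _
  have addr : ∀ x y : K, (x + y) ^ r = x ^ r + y ^ r := by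
    intro x y; rw [hrp]; exact add_pow_char_pow x y p _
  have conj2 : ∀ x : K, (x ^ r) ^ r = x := by
    intro x
    rw [← pow_mul, ← pow_two, ← hK]
    exact FiniteField.pow_card x
  have hK' : Fintype.card K = (r - 1) * (r + 1) + 1 := by
    rw [hK]
    obtain ⟨k, rfl⟩ : ∃ k, r = k + 1 := ⟨r - 1, by omega⟩
    simp only [Nat.add_sub_cancel]
    ring
  have hUcard := (pow_fibers (K := K) (r - 1) (r + 1) (by omega) (by omega) hK').2
  obtain ⟨U, hU⟩ : ∃ U, U = univ.filter (fun w : K => w ^ (r + 1) = 1) := ⟨_, rfl⟩
  rw [← hU] at hUcard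
  obtain ⟨A, hA⟩ : ∃ A : K → Finset K, ∀ w, A w =
      univ.filter (fun x : K => (x ^ Q - x) ^ r = w * (x ^ Q - x)) := ⟨_, fun _ => rfl⟩
  -- the sum in terms of the sets `A w`
  have hS : ∑ x : K, quadraticChar K (x ^ Q - x) = ∑ w ∈ U, eps r w * (A w).card := by
    have e1 : ∑ x : K, quadraticChar K (x ^ Q - x) = ∑ x : K, ∑ w ∈ U,
        if (x ^ Q - x) ^ r = w * (x ^ Q - x) then eps r w else 0 := by
      refine Finset.sum_congr rfl fun x _ => ?_
      rw [hU]
      exact chi_expand r hK h4 hr1 _
    rw [e1, Finset.sum_comm]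
    refine Finset.sum_congr rfl fun w _ => ?_
    rw [← Finset.sum_filter, Finset.sum_const, ← hA w, nsmul_eq_mul, mul_comm]
  -- `A w` has at least `r` elements
  have hAge : ∀ w ∈ U, r ≤ (A w).card := by
    intro w hw
    rw [hU, mem_filter] at hw
    have hw0 : w ≠ 0 := by
      rintro rfl
      rw [zero_pow (by omega)] at hw
      exact zero_ne_one hw.2
    have h1 := card_ker_ge (fun x : K => (x ^ Q - x) ^ r - w * (x ^ Q - x)) (by
      intro x y
      simp only [subQ, subr]
      ring) (univ.filter (fun y : K => w * y ^ r + y = 0)) (by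
      intro x
      rw [mem_filter]
      refine ⟨mem_univ _, ?_⟩
      rw [subr, mul_pow, conj2]
      have h2 : w * w ^ r = 1 := by rw [← pow_succ']; exact hw.2
      linear_combination (-(x ^ Q - x) ^ r) * h2)
    have h2 : (univ.filter (fun y : K => w * y ^ r + y = 0)).card ≤ r := by
      have h3 := card_roots_le (C w * X ^ r + X) (by
        intro h
        have := congrArg (fun P => P.coeff r) h
        simp only [coeff_add, coeff_C_mul, coeff_X_pow, if_true, coeff_X, coeff_zero] at this
        rw [if_neg (by omega)] at this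
        simp at this
        exact hw0 this) (univ.filter (fun y : K => w * y ^ r + y = 0)) (by
        intro y hy
        rw [mem_filter] at hy
        simp [hy.2])
      refine h3.trans ?_
      refine (natDegree_add_le _ _).trans ?_
      rw [natDegree_X]
      refine max_le ?_ hr1.le
      exact natDegree_C_mul_X_pow_le w r
    have h3 : (univ.filter (fun x : K => (x ^ Q - x) ^ r - w * (x ^ Q - x) = 0)) = A w := by
      rw [hA]
      ext x
      simp only [mem_filter, mem_univ, true_and, sub_eq_zero]
    rw [h3, hK] at h1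
    have h5 : r * r ≤ (A w).card * r := by
      calc r * r = r ^ 2 := by ring
        _ ≤ _ := h1
        _ ≤ (A w).card * r := Nat.mul_le_mul_left _ h2
    exact Nat.le_of_mul_le_mul_right h5 (by omega)
  -- the fixed field
  obtain ⟨t, ht⟩ : ∃ t, Q ^ (2 * h) - 1 = (Q - 1) * t := by
    have := Nat.sub_dvd_pow_sub_pow Q 1 (2 * h)
    rw [one_pow] at this
    exact this
  have hK'' : Fintype.card K = (Q - 1) * t + 1 := by
    rw [← ht, hK, hr]
    have : 1 ≤ Q ^ (2 * h) := Nat.one_le_pow _ _ (by omega)
    rw [Nat.sub_add_cancel this]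
    ring
  have ht0 : 0 < t := by
    rcases Nat.eq_zero_or_pos t with h0 | h0
    · subst h0
      have : 1 < Q ^ (2 * h) := Nat.one_lt_pow (by omega) hQ1
      omega
    · exact h0
  have hfix := card_fixed (K := K) Q t hQ1 ht0 hK''
  -- `A (-1)`
  have htau := fibers_full (fun x : K => x ^ r + x) (univ.filter (fun z : K => z ^ r = z)) (by
      intro x
      rw [mem_filter]
      refine ⟨mem_univ _, ?_⟩
      rw [addr, conj2]
      ring) r r (by
      intro b _
      have h3 := card_roots_le (X ^ r + X - C b) (by
        intro h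
        have := congrArg (fun P => P.coeff r) h
        simp only [coeff_add, coeff_sub, coeff_C, coeff_X_pow, if_true, coeff_X,
          coeff_zero] at this
        rw [if_neg (by omega), if_neg (by omega)] at this
        simp at this) (univ.filter (fun x : K => x ^ r + x = b)) (by
        intro y hy
        rw [mem_filter] at hy
        simp [hy.2])
      refine h3.trans ?_
      refine (natDegree_sub_le _ _).trans ?_
      rw [natDegree_C]
      refine max_le ?_ (by omega)
      refine (natDegree_add_le _ _).trans ?_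
      rw [natDegree_X, natDegree_X_pow]
      exact max_le le_rfl hr1.le) (by
      have h3 := card_roots_le (X ^ r - X) (by
        intro h
        have := congrArg (fun P => P.coeff r) h
        simp only [coeff_sub, coeff_X_pow, if_true, coeff_X, coeff_zero] at this
        rw [if_neg (by omega)] at this
        simp at this) (univ.filter (fun z : K => z ^ r = z)) (by
        intro y hy
        rw [mem_filter] at hy
        simp [hy.2])
      refine h3.trans ?_
      refine (natDegree_sub_le _ _).trans ?_
      rw [natDegree_X, natDegree_X_pow]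
      exact max_le le_rfl hr1.le) (by rw [hK]; ring) (by omega)
  have hAneg : (A (-1)).card = Q * r := by
    have e1 : A (-1) = univ.filter (fun x : K => x ^ r + x ∈
        univ.filter (fun z : K => z ^ Q = z)) := by
      rw [hA]
      ext x
      simp only [mem_filter, mem_univ, true_and]
      rw [subr, addQ]
      have e2 : (x ^ Q) ^ r = (x ^ r) ^ Q := by rw [← pow_mul, ← pow_mul, mul_comm]
      rw [e2]
      constructor
      · intro h; linear_combination h
      · intro h; linear_combination h
    rw [e1, Finset.card_eq_sum_card_fiberwise (f := fun x : K => x ^ r + x)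
      (t := univ.filter (fun z : K => z ^ Q = z))]
    · have e5 : Q * r = ∑ b ∈ univ.filter (fun z : K => z ^ Q = z), r := by
        rw [Finset.sum_const, hfix, smul_eq_mul]
      rw [e5]
      refine Finset.sum_congr rfl fun b hb => ?_
      rw [mem_filter] at hb
      have hbr : b ^ r = b := by
        rw [hr]
        clear * - hb
        induction h with
        | zero => simp
        | succ n ih => rw [pow_succ, pow_mul, ih, hb.2]
      refine Eq.trans ?_ (htau.1 b (by rw [mem_filter]; exact ⟨mem_univ _, hbr⟩))
      congr 1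
      ext x
      simp only [mem_filter, mem_univ, true_and]
      constructor
      · rintro ⟨_, h⟩; exact h
      · rintro h; exact ⟨by rw [h]; exact hb.2, h⟩
    · intro x hx
      simp only [coe_filter, mem_univ, true_and, Set.mem_ofPred_eq, mem_filter] at hx ⊢
      exact hx
  -- double counting
  have hsum : ∑ w ∈ U, (A w).card = r ^ 2 + Q * r := by
    have e1 : ∑ w ∈ U, (A w).card = ∑ x : K, (U.filter (fun w =>
        (x ^ Q - x) ^ r = w * (x ^ Q - x))).card := by
      simp only [hA, Finset.card_filter]
      exact Finset.sum_comm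
    have e2 : ∀ x : K, (U.filter (fun w => (x ^ Q - x) ^ r = w * (x ^ Q - x))).card =
        1 + if x ^ Q = x then r else 0 := by
      intro x
      split_ifs with hx
      · have : U.filter (fun w => (x ^ Q - x) ^ r = w * (x ^ Q - x)) = U := by
          apply Finset.filter_true_of_mem
          intro w _
          rw [hx, sub_self, mul_zero, zero_pow (by omega)]
        rw [this, hUcard]
        ring
      · have hz : x ^ Q - x ≠ 0 := sub_ne_zero.mpr hx
        have : U.filter (fun w => (x ^ Q - x) ^ r = w * (x ^ Q - x)) =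
            {(x ^ Q - x) ^ (r - 1)} := by
          ext w
          rw [mem_filter, mem_singleton]
          constructor
          · rintro ⟨_, h⟩
            have h1 : (x ^ Q - x) ^ (r - 1) * (x ^ Q - x) = w * (x ^ Q - x) := by
              rw [← pow_succ, Nat.sub_add_cancel hr1.le, h]
            exact (mul_right_cancel₀ hz h1).symm
          · rintro rfl
            refine ⟨?_, ?_⟩
            · rw [hU, mem_filter]
              refine ⟨mem_univ _, ?_⟩
              rw [← pow_mul]
              have h4 := FiniteField.pow_card_sub_one_eq_one _ hz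
              rw [hK'] at h4
              simpa using h4
            · rw [← pow_succ, Nat.sub_add_cancel hr1.le]
        rw [this, card_singleton]
    rw [e1, Finset.sum_congr rfl fun x _ => e2 x, Finset.sum_add_distrib, Finset.sum_const,
      ← Finset.sum_filter, Finset.sum_const, hfix, Finset.card_univ, hK]
    simp only [smul_eq_mul, mul_one]
  have hneg : (-1 : K) ∈ U := by
    rw [hU, mem_filter]
    refine ⟨mem_univ _, ?_⟩
    apply Even.neg_one_pow
    rw [Nat.even_iff]; omega
  have hrest : ∑ w ∈ U.erase (-1), (A w).card = ∑ w ∈ U.erase (-1), r := by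
    have e1 := Finset.add_sum_erase U (fun w => (A w).card) hneg
    rw [hsum, hAneg] at e1
    rw [Finset.sum_const, Finset.card_erase_of_mem hneg, hUcard, smul_eq_mul]
    simp only [Nat.add_sub_cancel]
    nlinarith
  have heach : ∀ w ∈ U.erase (-1), (A w).card = r := by
    intro w hw
    exact ((Finset.sum_eq_sum_iff_of_le (fun w hw =>
      hAge w (Finset.mem_of_mem_erase hw))).mp hrest.symm w hw).symm
  have heps : eps r (-1 : K) = -1 := by
    unfold eps
    rw [if_neg]
    have h2 : ringChar K ≠ 2 := by
      intro h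
      have := FiniteField.even_card_of_char_two h
      rw [hK, Nat.pow_mod] at this
      have h5 : r % 2 = 1 := by omega
      rw [h5] at this
      norm_num at this
    have h3 : Odd ((r + 1) / 2) := by rw [Nat.odd_iff]; omega
    rw [h3.neg_one_pow]
    exact Ring.neg_one_ne_one_of_char_ne_two h2
  have hse := sum_eps (K := K) r hK h4 hr1
  rw [← hU, ← Finset.add_sum_erase U _ hneg, heps] at hse
  rw [hS, ← Finset.add_sum_erase U _ hneg, heps, hAneg]
  have e3 : ∑ w ∈ U.erase (-1), eps r w * ((A w).card : ℤ) =
      (∑ w ∈ U.erase (-1), eps r w) * r := by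
    rw [Finset.sum_mul]
    refine Finset.sum_congr rfl fun w hw => ?_
    rw [heach w hw]
  rw [e3]
  have e4 : ∑ w ∈ U.erase (-1), eps r w = 1 := by linarith
  rw [e4]
  push_cast
  ring

end

end Pool.Agent.H69.Ratios
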