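import Pool.Agent.H69.Ratios.Points
import Pool.Agent.H69.Ratios.SpecialSum

/-!
# The `L`-function of `x^(q^N) - x`, `N = 2^j`
-/

set_option autoImplicit false
set_option linter.unusedSectionVars false

open Polynomial Finset
open scoped Classical

namespace Pool.Agent.H69.Ratios

variable {F : Type} [Field F] [Fintype F]

/-- the polynomial `x^(q^N) - x` -/
noncomputable def D0 (F : Type) [Field F] [Fintype F] (N : ℕ) : F[X] :=
  X ^ (Fintype.card F ^ N) - X

lemma aeval_D0 {K : Type} [Field K] [Algebra F K] (N : ℕ) (x : K) :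
    aeval x (D0 F N) = x ^ (Fintype.card F ^ N) - x := by
  simp [D0]

lemma one_lt_card_pow (N : ℕ) (hN : 0 < N) : 1 < Fintype.card F ^ N :=
  Nat.one_lt_pow hN.ne' Fintype.one_lt_card

lemma natDegree_D0 (N : ℕ) (hN : 0 < N) : (D0 F N).natDegree = Fintype.card F ^ N := by
  unfold D0
  exact FiniteField.X_pow_card_sub_X_natDegree_eq F (one_lt_card_pow N hN)

lemma monic_D0 (N : ℕ) (hN : 0 < N) : (D0 F N).Monic := by
  unfold D0
  apply monic_X_pow_sub
  rw [degree_X]
  exact_mod_cast one_lt_card_pow N hN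

lemma squarefree_D0 (N : ℕ) (hN : 0 < N) : Squarefree (D0 F N) := by
  obtain ⟨p, hp⟩ := CharP.exists F
  have hpp : p ∣ Fintype.card F ^ N :=
    dvd_pow (by
      obtain ⟨n, hpr, hn⟩ := FiniteField.card F p
      rw [hn]
      exact dvd_pow_self p n.ne_zero) hN.ne'
  apply Separable.squarefree
  exact galois_poly_separable p _ hpp

/-- the power sums vanish unless `2N` divides `m` -/
lemma psum_D0_zero (hq : Odd (Fintype.card F)) (j m : ℕ) (hm : 0 < m)
    (hdvd : ¬ (2 ^ (j + 1) ∣ m)) : psum (D0 F (2 ^ j)) m = 0 := by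
  obtain ⟨p, hp⟩ := CharP.exists F
  have hprime : Fact p.Prime := ⟨CharP.char_is_prime F p⟩
  have : NeZero m := ⟨hm.ne'⟩
  let K := FiniteField.Extension F p m
  let : Fintype K := Fintype.ofFinite K
  have hfr : Module.finrank F K = m := FiniteField.finrank_extension F p m
  have hcard : Fintype.card K = Fintype.card F ^ m := by
    rw [Module.card_eq_pow_finrank (K := F) (V := K), hfr]
  have h2 : ringChar K ≠ 2 := ringChar_ne_two_of_odd K (by rw [hcard]; exact hq.pow)
  have h := psum_eq_points (K := K) hq (D0 F (2 ^ j))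
  rw [hfr] at h
  rw [h]
  simp only [aeval_D0]
  -- the scaling element
  obtain ⟨i, k, hk, hmk⟩ := Nat.exists_eq_two_pow_mul_odd hm.ne'
  have hij : i ≤ j := by
    by_contra hcon
    push Not at hcon
    apply hdvd
    rw [hmk]
    exact dvd_mul_of_dvd_left (pow_dvd_pow 2 hcon) k
  obtain ⟨w, hw⟩ := quadraticChar_exists_neg_one h2
  obtain ⟨t, ht⟩ : ∃ t, t = ∑ i' ∈ range k, (Fintype.card F ^ (2 ^ i)) ^ i' := ⟨_, rfl⟩
  have htodd : Odd t := by
    rw [Nat.odd_iff, ht, odd_geom _ _ (hq.pow), ← Nat.odd_iff]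
    exact hk
  have hw0 : w ≠ 0 := by
    rintro rfl
    rw [quadraticChar_zero] at hw
    norm_num at hw
  obtain ⟨c, hc⟩ : ∃ c, c = w ^ t := ⟨_, rfl⟩
  have hcc : quadraticChar K c = -1 := by
    rw [hc, map_pow, hw, htodd.neg_one_pow]
  have hc0 : c ≠ 0 := by rw [hc]; exact pow_ne_zero _ hw0
  have hfix : c ^ (Fintype.card F ^ (2 ^ i)) = c := by
    have h1 : t * (Fintype.card F ^ (2 ^ i) - 1) = Fintype.card K - 1 := by
      rw [ht, hcard, hmk, pow_mul]
      have hQ1 : 1 ≤ Fintype.card F ^ (2 ^ i) := Nat.one_le_pow _ _ Fintype.card_pos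
      zify [hQ1, Nat.one_le_pow k _ hQ1]
      exact geom_sum_mul ((Fintype.card F : ℤ) ^ (2 ^ i)) k
    have h2 : c ^ (Fintype.card F ^ (2 ^ i) - 1) = 1 := by
      rw [hc, ← pow_mul, h1]
      exact FiniteField.pow_card_sub_one_eq_one w hw0
    have hQ1 : 1 ≤ Fintype.card F ^ (2 ^ i) := Nat.one_le_pow _ _ Fintype.card_pos
    calc c ^ (Fintype.card F ^ (2 ^ i)) = c ^ (Fintype.card F ^ (2 ^ i) - 1 + 1) := by
          rw [Nat.sub_add_cancel hQ1]
      _ = c := by rw [pow_succ, h2, one_mul]
  have hfix2 : c ^ (Fintype.card F ^ (2 ^ j)) = c := by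
    obtain ⟨l, hl⟩ := pow_dvd_pow 2 hij
    rw [hl, pow_mul]
    clear * - hfix
    induction l with
    | zero => simp
    | succ n ih => rw [pow_succ, pow_mul, ih, hfix]
  have hS : ∑ x : K, quadraticChar K (x ^ Fintype.card F ^ 2 ^ j - x) =
      -∑ x : K, quadraticChar K (x ^ Fintype.card F ^ 2 ^ j - x) := by
    conv_lhs => rw [← Equiv.sum_comp (Equiv.mulLeft₀ c hc0)]
    rw [← Finset.sum_neg_distrib]
    refine Finset.sum_congr rfl fun x _ => ?_
    simp only [Equiv.mulLeft₀_apply]
    rw [mul_pow, hfix2, ← mul_sub, map_mul, hcc]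
    ring
  linarith

/-- the power sums when `2N` divides `m` -/
lemma psum_D0 (hq : Odd (Fintype.card F)) (j m h : ℕ) (hj : 0 < j) (hh : 0 < h)
    (hmh : m = 2 ^ (j + 1) * h) :
    psum (D0 F (2 ^ j)) m =
      -(((Fintype.card F : ℤ) ^ (2 ^ j) - 1) * ((Fintype.card F : ℤ) ^ (2 ^ j)) ^ h) := by
  obtain ⟨p, hp⟩ := CharP.exists F
  have hprime : Fact p.Prime := ⟨CharP.char_is_prime F p⟩
  have hm : 0 < m := by rw [hmh]; positivity
  have : NeZero m := ⟨hm.ne'⟩
  let K := FiniteField.Extension F p m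
  let : Fintype K := Fintype.ofFinite K
  have hfr : Module.finrank F K = m := FiniteField.finrank_extension F p m
  have hcard : Fintype.card K = Fintype.card F ^ m := by
    rw [Module.card_eq_pow_finrank (K := F) (V := K), hfr]
  have hs := psum_eq_points (K := K) hq (D0 F (2 ^ j))
  rw [hfr] at hs
  rw [hs]
  simp only [aeval_D0]
  obtain ⟨n, -, hn⟩ := FiniteField.card F p
  have hKp : CharP K p := charP_of_injective_algebraMap (algebraMap F K).injective p
  have hsp := special_sum (K := K) p (n * 2 ^ j) h (Fintype.card F ^ 2 ^ j)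
    ((Fintype.card F ^ 2 ^ j) ^ h) (by positivity) hh (by rw [hn, pow_mul]) rfl
    (by rw [hcard, hmh, ← pow_mul, ← pow_mul]; congr 1; ring)
    (by
      obtain ⟨i, rfl⟩ : ∃ i, j = i + 1 := ⟨j - 1, by omega⟩
      rw [← pow_mul, pow_succ, mul_comm (2 ^ i) 2, mul_assoc, pow_mul, Nat.pow_mod]
      have : Fintype.card F ^ 2 % 4 = 1 := by
        obtain ⟨k, hk⟩ := hq
        rw [hk]
        have : (2 * k + 1) ^ 2 = 4 * (k * (k + 1)) + 1 := by ring
        omega
      rw [this]
      simp)
  rw [hsp]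
  push_cast
  ring

/-- two-term recursion for the coefficients -/
lemma coef_rec (D : F[X]) (M k : ℕ) (a : ℤ) (hM : 0 < M)
    (h0 : ∀ m, 0 < m → ¬ (M ∣ m) → psum D m = 0)
    (h1 : ∀ h, 0 < h → psum D (M * h) = -((k * M : ℤ) * a ^ h)) (n : ℕ) :
    (n : ℤ) * coef D n = if M ≤ n then (a * ((n - M : ℕ) : ℤ) - k * M * a) * coef D (n - M)
      else 0 := by
  split_ifs with hn
  · obtain ⟨l, rfl⟩ : ∃ l, n = M + l := ⟨n - M, by omega⟩
    simp only [Nat.add_sub_cancel_left]
    have e1 := recursion D (M + l)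
    have e2 := recursion D l
    have e3 : ∑ m ∈ Icc 1 (M + l), psum D m * coef D (M + l - m) =
        ∑ m ∈ Icc 1 M, psum D m * coef D (M + l - m) +
          ∑ m ∈ Icc 1 l, psum D (M + m) * coef D (l - m) := by
      have h2 : Icc 1 (M + l) = Icc 1 M ∪ (Icc 1 l).image (fun m => M + m) := by
        ext m
        simp only [mem_union, mem_Icc, mem_image]
        constructor
        · intro h
          by_cases hm : m ≤ M
          · left; exact ⟨h.1, hm⟩
          · right; exact ⟨m - M, by omega, by omega⟩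
        · rintro (h | ⟨m', h, rfl⟩)
          · omega
          · omega
      rw [h2, Finset.sum_union, Finset.sum_image]
      · congr 1
        refine Finset.sum_congr rfl fun m _ => ?_
        congr 2
        omega
      · intro x _ y _ hxy
        simpa using hxy
      · rw [Finset.disjoint_left]
        intro m hm hm'
        simp only [mem_Icc, mem_image] at hm hm'
        obtain ⟨m', h, rfl⟩ := hm'
        omega
    have e4 : ∑ m ∈ Icc 1 M, psum D m * coef D (M + l - m) = -(k * M * a) * coef D l := by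
      rw [Finset.sum_eq_single M]
      · have := h1 1 one_pos
        rw [mul_one, pow_one] at this
        rw [this, Nat.add_sub_cancel_left]
      · intro b hb hbM
        rw [mem_Icc] at hb
        rw [h0 b (by omega) ?_, zero_mul]
        intro hd
        have := Nat.le_of_dvd (by omega) hd
        omega
      · intro h
        exfalso
        apply h
        rw [mem_Icc]
        omega
    have e5 : ∀ m ∈ Icc 1 l, psum D (M + m) * coef D (l - m) =
        a * (psum D m * coef D (l - m)) := by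
      intro m hm
      rw [mem_Icc] at hm
      by_cases hd : M ∣ m
      · obtain ⟨h, rfl⟩ := hd
        have hh : 0 < h := by
          rcases Nat.eq_zero_or_pos h with h' | h'
          · subst h'; omega
          · exact h'
        rw [show M + M * h = M * (h + 1) by ring, h1 (h + 1) (by omega), h1 h hh]
        ring
      · rw [h0 m (by omega) hd, h0 (M + m) (by omega) (by
          intro h
          apply hd
          exact (Nat.dvd_add_right (dvd_refl M)).mp h)]
        ring
    rw [Finset.sum_congr rfl e5, ← Finset.mul_sum, ← e2] at e3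
    rw [e1, e3, e4]
    ring
  · rw [recursion D n]
    apply Finset.sum_eq_zero
    intro m hm
    rw [mem_Icc] at hm
    rw [h0 m (by omega) ?_, zero_mul]
    intro hd
    have := Nat.le_of_dvd (by omega) hd
    omega

/-- the coefficients of `(1 - a X^M)^k` satisfy the same recursion -/
lemma poly_rec (M k : ℕ) (a : ℤ) (n : ℕ) :
    (n : ℤ) * ((1 - C a * X ^ M : ℤ[X]) ^ k).coeff n =
      if M ≤ n then (a * ((n - M : ℕ) : ℤ) - k * M * a) *
        ((1 - C a * X ^ M : ℤ[X]) ^ k).coeff (n - M) else 0 := by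
  obtain ⟨P, hP⟩ : ∃ P : ℤ[X], P = (1 - C a * X ^ M) ^ k := ⟨_, rfl⟩
  rw [← hP]
  have hX : ∀ n : ℕ, (X * derivative P).coeff n = (n : ℤ) * P.coeff n := by
    intro n
    rcases n with _ | n
    · simp
    · rw [coeff_X_mul, coeff_derivative]
      push_cast
      ring
  have key : (1 - C a * X ^ M) * (X * derivative P) = -(C (k * M * a) * (P * X ^ M)) := by
    rw [hP, derivative_pow]
    rcases k with _ | k
    · simp
    · rcases M with _ | M
      · simp
      · simp only [Nat.add_sub_cancel, derivative_sub, derivative_one, derivative_mul,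
          derivative_C, derivative_X_pow, zero_mul, zero_add, zero_sub]
        push_cast
        simp only [map_add, map_mul, map_natCast, map_one]
        ring
  have h1 := congrArg (fun Q => Q.coeff n) key
  simp only [sub_mul, one_mul, coeff_sub, coeff_neg, coeff_C_mul] at h1
  rw [mul_assoc, coeff_C_mul, coeff_X_pow_mul', coeff_mul_X_pow', hX, hX] at h1
  split_ifs at h1 ⊢ with h
  · linarith
  · simpa using h1

lemma coef_eq (D : F[X]) (M k : ℕ) (a : ℤ) (hM : 0 < M)
    (h0 : ∀ m, 0 < m → ¬ (M ∣ m) → psum D m = 0)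
    (h1 : ∀ h, 0 < h → psum D (M * h) = -((k * M : ℤ) * a ^ h)) (n : ℕ) :
    coef D n = ((1 - C a * X ^ M : ℤ[X]) ^ k).coeff n := by
  induction n using Nat.strong_induction_on with
  | _ n ih =>
    rcases Nat.eq_zero_or_pos n with hn | hn
    · subst hn
      rw [coef_zero, coeff_zero_eq_eval_zero]
      simp [hM.ne']
    · have e1 := coef_rec D M k a hM h0 h1 n
      have e2 := poly_rec M k a n
      have hn' : (n : ℤ) ≠ 0 := by exact_mod_cast hn.ne'
      apply mul_left_cancel₀ hn'
      rw [e1, e2]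
      split_ifs with h
      · rw [ih (n - M) (by omega)]
      · rfl

/-- `2^(j+1)` divides `q^(2^j) - 1` -/
lemma two_pow_dvd (q : ℕ) (hq : Odd q) (j : ℕ) : 2 ^ (j + 1) ∣ q ^ (2 ^ j) - 1 := by
  induction j with
  | zero =>
    obtain ⟨k, hk⟩ := hq
    simp only [zero_add, pow_one, pow_zero]
    exact ⟨k, by omega⟩
  | succ j ih =>
    have h1 : q ^ 2 ^ (j + 1) - 1 = (q ^ 2 ^ j - 1) * (q ^ 2 ^ j + 1) := by
      rw [pow_succ, pow_mul]
      have hq1 : 1 ≤ q ^ 2 ^ j := Nat.one_le_pow _ _ hq.pos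
      obtain ⟨c, hc⟩ : ∃ c, q ^ 2 ^ j = c + 1 := ⟨q ^ 2 ^ j - 1, by omega⟩
      rw [hc]
      simp only [Nat.add_sub_cancel]
      have : (c + 1) ^ 2 = c * (c + 1 + 1) + 1 := by ring
      omega
    rw [h1, pow_succ]
    apply mul_dvd_mul ih
    have : Odd (q ^ 2 ^ j) := hq.pow
    obtain ⟨k, hk⟩ := this
    exact ⟨k + 1, by omega⟩

/-- **The `L`-function of `x^(q^N) - x`**, `N = 2^j`. -/
lemma coef_D0 (hq : Odd (Fintype.card F)) (j k : ℕ) (hj : 0 < j)
    (hk : Fintype.card F ^ (2 ^ j) = k * 2 ^ (j + 1) + 1) (n : ℕ) :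
    coef (D0 F (2 ^ j)) n =
      ((1 - C ((Fintype.card F : ℤ) ^ (2 ^ j)) * X ^ (2 ^ (j + 1)) : ℤ[X]) ^ k).coeff n := by
  apply coef_eq _ _ _ _ (by positivity)
  · intro m hm hd
    exact psum_D0_zero hq j m hm hd
  · intro h hh
    rw [psum_D0 hq j _ h hj hh rfl]
    have : ((Fintype.card F : ℤ) ^ (2 ^ j)) = k * 2 ^ (j + 1) + 1 := by exact_mod_cast hk
    rw [this]
    push_cast
    ring

end Pool.Agent.H69.Ratios
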